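import Pool.Agent.U974.TW.Fld3

/-!
# Central values of quadratic twists over multiquadratic fields: clusters of primes

`E_D : y² = x³ - 35 D² x - 98 D³` is the twist of `X_0(49)` by `D`; `T` is ANY finite set of primes `≡ 1 mod 4`
and `N` any number prime to `7`.

There are an auxiliary prime `r ≡ 1 mod 4 N`, inert in `ℚ(√-7)`, `{d₀, d₁} = {1, r}`, a bound `C` and a set
`H ⊆ [0, C]` such that for infinitely many `n` the primes in `[n, n + C]` are exactly the `n + y`, `y ∈ H`, all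
`≡ 1 mod 28 N`, and this cluster of primes contains ALL graphs: for every graph `G` with the vertices `1, …, m`
there are `h_1 < … < h_m` in `H`, independent of `n`, such that the following holds for EVERY nonempty
`S ⊆ {1, …, m}`; put `d = d₀ ∏_{i ∈ S} (n + h_i)` and `d' = d₁ ∏_{i ∈ S} (n + h_i)`.

* PRESERVATION. If the number of the rooted spanning forests of `G[S]` is odd, then for all `U, J ⊆ T` such that
  `E_M(ℚ)` is finite and `Ш(E_M/ℚ)[2] = 0` for the `M = ∏ (U ∆ V)`, `V ⊆ J`, and for ALL number fields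
  `K ⊆ ℚ(√q : q ∈ J)`, the `L`-function over `K` of the twist of `E_{∏ U}` by `d` is not zero at the central point,
  this twist has finitely many points over `K` and the 2-primary part of its `Ш` over `K` is killed by `[K : ℚ]`.
* `E_{d ∏ U}(ℚ)` is finite with `Ш[2] = 0` if AND ONLY IF this number is odd and `E_{∏ U}` has this property;
  the twist by `d'` instead of `d` NEVER has it.

For the graph without edges and `U`, `J` as above, `χ = χ_{∏ U}`: for all the `2^m - 1` numbers `d`,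
`L(1/2, π_K ⊗ χ χ_d) ≠ 0`, where `π_K` is the base change to `K ⊆ ℚ(√q : q ∈ J)` of the newform of level `49`; and
`d > 0`, `d ≡ 1 mod 4 N`, so `χ_d` is trivial at the real places and at those above any given primes other than `7`
(for `N` even and a multiple of these primes): `χ χ_d` has the local components of `χ` there.

Proof. The clusters are those of `Pool/Agent/U974/TW/Mono.lean` (see `MP_03e5d0_nt/BoundedClusters`), in a residue
class modulo `28 N r ∏ T` such that the primes of `T` are squares and `r` is a nonsquare modulo the primes of the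
cluster; the linear system for the 2-descent then splits into that of `U` and that of the graph
(`TW/Fld1.lean`, `TW/Fld2.lean`). The passage from the twists to the fields is helper80's `U80/MQ`.
-/

set_option autoImplicit false

open scoped Classical

open WeierstrassCurve NumberField IsDedekindDomain
open scoped symmDiff

namespace Pool.Agent.Results.MP_50bb2e_nt.ClustersOverMultiquadraticFields

open Pool.Agent.TH841.NF.D (Sha)

/-- the coefficient of `x` -/
def A (D : ℕ) : ℤ := -35 * (D : ℤ) ^ 2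

/-- the constant coefficient -/
def B (D : ℕ) : ℤ := -98 * (D : ℤ) ^ 3

/-- the curve `y² = x³ - 35 D² x - 98 D³` over `K` -/
def curve (D : ℕ) (K : Type) [Field K] : WeierstrassCurve K :=
  { a₁ := 0, a₂ := 0, a₃ := 0, a₄ := ((A D : ℤ) : K), a₆ := ((B D : ℤ) : K) }

/-- `E_D(ℚ)` is finite and `Ш(E_D/ℚ)` has no element of order two -/
def TrivialTwo (D : ℕ) : Prop :=
  Finite (curve D ℚ).toAffine.Point ∧ ∀ x : Sha (curve D ℚ), 2 • x = 0 → x = 0

/-- `a_v = q_v + 1 - #E(k_v) = q_v - #{(x, y) ∈ k_v² : y² = x³ + a x + b}` -/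
noncomputable def trace {K : Type} [Field K] [NumberField K] (a b : ℤ)
    (v : HeightOneSpectrum (𝓞 K)) : ℤ :=
  ((Ideal.absNorm v.asIdeal : ℕ) : ℤ) -
    ((Nat.card {x : (𝓞 K ⧸ v.asIdeal) × (𝓞 K ⧸ v.asIdeal) //
      x.2 ^ 2 = x.1 ^ 3 + (a : 𝓞 K ⧸ v.asIdeal) * x.1 + (b : 𝓞 K ⧸ v.asIdeal)} : ℕ) : ℤ)

/-- the Euler factor at `v` of `y² = x³ + a x + b`; it is `1` at the places that divide
`2 (4 a³ + 27 b²)` -/
noncomputable def factor {K : Type} [Field K] [NumberField K] (a b : ℤ) (s : ℂ)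
    (v : HeightOneSpectrum (𝓞 K)) : ℂ :=
  if ((2 * (4 * a ^ 3 + 27 * b ^ 2) : ℤ) : 𝓞 K) ∈ v.asIdeal then 1 else
    (1 - ((trace a b v : ℤ) : ℂ) * ((Ideal.absNorm v.asIdeal : ℕ) : ℂ) ^ (-s)
      + ((Ideal.absNorm v.asIdeal : ℕ) : ℂ) ^ (1 - 2 * s))⁻¹

/-- the rank part of the conjecture for `E_D` over `K`, with order and rank `0`: `E_D(K)` is finite, the
Euler product (without the factors at the places that divide `2 (4 A³ + 27 B²)`) is an entire function `Λ`,
the order of `Λ` at `1` is the rank of `E_D(K)`, and both are `0` -/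
def RankZero (D : ℕ) (K : Type) [Field K] [NumberField K] : Prop :=
  Finite (curve D K).toAffine.Point ∧ Module.finrank ℤ (curve D K).toAffine.Point = 0 ∧
    ∃ Λ : ℂ → ℂ, Differentiable ℂ Λ ∧
      (∀ s : ℂ, (3 : ℝ) / 2 < s.re → HasProd (factor (K := K) (A D) (B D) s) (Λ s)) ∧
      analyticOrderAt Λ 1 = ((Module.finrank ℤ (curve D K).toAffine.Point : ℕ) : ℕ∞) ∧ Λ 1 ≠ 0

/-- the elements of `Ш(E_D/K)` of order a power of two are killed by `[K : ℚ]` -/
def ShaKilled (D : ℕ) (K : Type) [Field K] [NumberField K] : Prop :=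
  ∀ (k : ℕ) (x : Sha (curve D K)), 2 ^ k • x = 0 → Module.finrank ℚ K • x = 0

/-- the field generated by the square roots of the elements of `J` -/
noncomputable def Roots (J : Finset ℕ) : IntermediateField ℚ ℂ :=
  IntermediateField.adjoin ℚ {z : ℂ | ∃ q ∈ J, z ^ 2 = (q : ℂ)}

/-- the determinant of the matrix `1 + Laplacian` of the subgraph of `G` induced on `S` is odd -/
def OddForests {m : ℕ} (G : SimpleGraph (Fin m)) (S : Finset (Fin m)) : Prop :=
  ((1 : Matrix (S : Set (Fin m)) (S : Set (Fin m)) (ZMod 2)) +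
    (G.induce (S : Set (Fin m))).lapMatrix (ZMod 2)).det ≠ 0

section proof

open Pool.Agent.U974.TW

theorem rankZero_of {D : ℕ} {K : Type} [Field K] [NumberField K]
    (hfin : Finite (curve D K).toAffine.Point) {G : ℂ → ℂ} (g1 : Differentiable ℂ G)
    (g2 : ∀ s : ℂ, (3 : ℝ) / 2 < s.re → HasProd (factor (K := K) (A D) (B D) s) (G s))
    (g3 : G 1 ≠ 0) : RankZero D K := by
  have hrk : Module.finrank ℤ (curve D K).toAffine.Point = 0 := Pool.Agent.U80.MQ.finrank_fin
  refine ⟨hfin, hrk, G, g1, g2, ?_, g3⟩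
  rw [hrk]
  exact (g1.analyticAt 1).analyticOrderAt_eq_zero.2 g3

theorem numberField {J : Finset ℕ} (K : IntermediateField ℚ ℂ) (hK : K ≤ Roots J) : NumberField K := by
  obtain ⟨n, _, _, _, _, _, _, h⟩ := Pool.Agent.U80.MQ.exists_gens K hK
  exact { to_charZero := inferInstance
          to_finiteDimensional := Module.finite_of_finrank_pos (by rw [h]; positivity) }

theorem part_field {m : ℕ} {G : SimpleGraph (Fin m)} {f : Fin m → ℕ} {c : ZMod 2} {T : Finset ℕ} {r : ℕ}
    (h : CfgF G f c T r) {U J : Finset ℕ} (hU : U ⊆ T) (hJ : J ⊆ T)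
    (hUJ : ∀ V, V ⊆ J → TrivialTwo (∏ p ∈ U ∆ V, p)) (b : Bool) (S : Finset (Fin m))
    (hS : Ker G (c + if b then 1 else 0) S) (K : IntermediateField ℚ ℂ) (hK : K ≤ Roots J)
    (D : ℕ) (hD : D = (∏ p ∈ U, p) * ((if b then r else 1) * ∏ i ∈ S, f i)) :
    ∃ _ : NumberField K, RankZero D K ∧ ShaKilled D K := by
  have hN : NumberField K := numberField K hK
  obtain ⟨h1, ⟨G, g1, g2, g3⟩, h3⟩ := h.field hU hJ hUJ b S hS K hK D hD
  exact ⟨hN, rankZero_of h1 g1 (fun s hs => g2 s hs) g3, fun k x hx => h3 k x hx⟩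

end proof

/-- **Central values of quadratic twists over multiquadratic fields: clusters of primes.** -/
theorem result (m N : ℕ) (hN : 0 < N) (h7 : N.Coprime 7) (T : Finset ℕ)
    (hT : ∀ q ∈ T, q.Prime ∧ q % 4 = 1) :
    ∃ (r C : ℕ) (H : Finset ℕ) (h : SimpleGraph (Fin m) → Fin m → ℕ) (d₀ d₁ : ℕ),
      r.Prime ∧ r ≡ 1 [MOD 4 * N] ∧ r % 7 = 3 ∧ (d₀ = 1 ∧ d₁ = r ∨ d₀ = r ∧ d₁ = 1) ∧
      (∀ y ∈ H, y ≤ C) ∧ (∀ G, StrictMono (h G) ∧ ∀ i, h G i ∈ H) ∧
      {n : ℕ | (∀ y ≤ C, ((n + y).Prime ↔ y ∈ H)) ∧ (∀ y ∈ H, n + y ≡ 1 [MOD 28 * N]) ∧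
        ∀ (G : SimpleGraph (Fin m)) (S : Finset (Fin m)), S.Nonempty → ∀ U, U ⊆ T →
          (OddForests G S → ∀ J, J ⊆ T → (∀ V, V ⊆ J → TrivialTwo (∏ q ∈ U ∆ V, q)) →
            ∀ K : IntermediateField ℚ ℂ, K ≤ Roots J → ∃ _ : NumberField K,
              RankZero ((∏ q ∈ U, q) * (d₀ * ∏ i ∈ S, (n + h G i))) K ∧
              ShaKilled ((∏ q ∈ U, q) * (d₀ * ∏ i ∈ S, (n + h G i))) K) ∧
          (TrivialTwo ((∏ q ∈ U, q) * (d₀ * ∏ i ∈ S, (n + h G i))) ↔
            TrivialTwo (∏ q ∈ U, q) ∧ OddForests G S) ∧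
          ¬ TrivialTwo ((∏ q ∈ U, q) * (d₁ * ∏ i ∈ S, (n + h G i)))}.Infinite := by
  obtain ⟨r, hr, hr1, hr2, C, H, h, c, h1, h2, h3⟩ := Pool.Agent.U974.TW.rel m N hN h7 T hT
  obtain ⟨β, hβ1, hβ2⟩ := Pool.Agent.U974.TW.exists_flip c
  refine ⟨r, C, H, h, if β then r else 1, if (!β) then r else 1, hr, hr1, hr2, ?_, h2, h1,
    h3.mono ?_⟩
  · cases β
    · exact Or.inl ⟨rfl, rfl⟩
    · exact Or.inr ⟨rfl, rfl⟩
  · rintro n ⟨g1, g2, g3⟩
    refine ⟨g1, g2, fun G S hS U hU => ⟨fun ho J hJ hUJ K hK => ?_, ?_, ?_⟩⟩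
    · refine part_field (g3 G) hU hJ hUJ β S ?_ K hK _ rfl
      rw [hβ1]
      exact (Pool.Agent.U974.TW.ker_iff G S).2 ho
    · have h4 := (g3 G).tt hU β S
      rw [hβ1, Pool.Agent.U974.TW.ker_iff] at h4
      exact h4
    · have h4 := (g3 G).tt hU (!β) S
      rw [hβ2] at h4
      exact fun h5 => Pool.Agent.U974.TW.ker_zero G hS (h4.1 h5).2

end Pool.Agent.Results.MP_50bb2e_nt.ClustersOverMultiquadraticFields
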