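import Pool.Agent.U80.FT.Tower
import Pool.Agent.U115.GE.Binom

/-!
# Central order zero for a positive proportion of the quadratic twists by values of the norm form
# `a² + b²`, over multiquadratic fields and infinite towers above them

`E_D : y² = x³ - 35 D² x - 98 D³` is the quadratic twist by `D` of `X_0(49)`. Let `P` be a finite set of
primes `≡ 1 mod 4` and `Ω = ℚ(√p : p ∈ P)`. For `D` in the class (squarefree, all prime factors `1 mod 4`)
let `Ω_∞(D)` be the extension of `Ω` generated by the square roots of the tower primes: the primes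
`q ≡ 1 mod 4` that are inert in `ℚ(√-7)` and squares modulo the prime factors of `D` and the elements of `P`
that split in `ℚ(√-7)`; it has infinite degree. For a number field `F ⊆ Ω_∞(D)` let `π` be the base change
to `F` of the newform of level `49`; then `L(s, π ⊗ χ_D)` is, up to the normalization, the `L`-function of
`E_D` over `F`.

Theorem. Let `T` be a finite subset of the class. For a positive proportion of ALL rational numbers
`t = a / b` (in lowest terms, ordered by `a² + b²` or by `max (|a|, |b|)`) the following holds for all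
`M ∈ T` at once, with `D = tw M (a² + b²)`, the squarefree part of `M (a² + b²)`: over ALL the number fields
`F ⊆ Ω_∞(D)`, in particular over all the subfields of `Ω`, the central order of `π ⊗ χ_D` is zero,
`E_D(F)` is finite and `[F : ℚ]` kills `Ш(E_D/F)[2^∞]`. Among the `t` with `a² + b²` odd and squarefree the
proportion is at least `c ^ N`, `c = 0.4194…`, `N` the number of the different `tw (∏ S) M`, `S ⊆ P`, `M ∈ T`.
If the elements of `T` are different modulo the products of subsets of `P`, the sets of the `M ∈ T` with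
trivial `2`-parts over `Ω` follow an exact law: independent events of probability `c ^ (2 ^ |P|)`.
-/

set_option autoImplicit false

open scoped Classical

open WeierstrassCurve NumberField IsDedekindDomain Filter Topology

namespace Pool.Agent.Results.MP_50bb2e_nt.NormFormTwistsTowers

open Pool.Agent.TH841.NF.D (Sha)

/-- the height `a² + b²` of the rational number `t = a / b` in lowest terms -/
def height (t : ℚ) : ℕ := t.num.natAbs ^ 2 + t.den ^ 2

/-- the coefficient of `x` -/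
def A (D : ℕ) : ℤ := -35 * (D : ℤ) ^ 2

/-- the constant coefficient -/
def B (D : ℕ) : ℤ := -98 * (D : ℤ) ^ 3

/-- the curve `y² = x³ - 35 D² x - 98 D³` over `K` -/
def curve (D : ℕ) (K : Type) [Field K] : WeierstrassCurve K :=
  { a₁ := 0, a₂ := 0, a₃ := 0, a₄ := ((A D : ℤ) : K), a₆ := ((B D : ℤ) : K) }

/-- `a_v = q_v + 1 - #E(k_v) = q_v - #{(x, y) ∈ k_v² : y² = x³ + a x + b}` -/
noncomputable def trace {K : Type} [Field K] [NumberField K] (a b : ℤ)
    (v : HeightOneSpectrum (𝓞 K)) : ℤ :=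
  ((Ideal.absNorm v.asIdeal : ℕ) : ℤ) -
    ((Nat.card {x : (𝓞 K ⧸ v.asIdeal) × (𝓞 K ⧸ v.asIdeal) //
      x.2 ^ 2 = x.1 ^ 3 + (a : 𝓞 K ⧸ v.asIdeal) * x.1 + (b : 𝓞 K ⧸ v.asIdeal)} : ℕ) : ℤ)

/-- the Euler factor at `v` of `y² = x³ + a x + b`; it is `1` at the places that divide
`2 (4 a³ + 27 b²)` -/
noncomputable def factor {K : Type} [Field K] [NumberField K] (a b : ℤ) (s : ℂ)
    (v : HeightOneSpectrum (𝓞 K)) : ℂ :=
  if ((2 * (4 * a ^ 3 + 27 * b ^ 2) : ℤ) : 𝓞 K) ∈ v.asIdeal then 1 else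
    (1 - ((trace a b v : ℤ) : ℂ) * ((Ideal.absNorm v.asIdeal : ℕ) : ℂ) ^ (-s)
      + ((Ideal.absNorm v.asIdeal : ℕ) : ℂ) ^ (1 - 2 * s))⁻¹

/-- The central order over `K` is zero: the Euler product of `E_D` over `K` (without the factors at the
places that divide `2 (4 A³ + 27 B²)`) is an entire function which is not zero at `1`. -/
def OrderZero (D : ℕ) (K : Type) [Field K] [NumberField K] : Prop :=
  ∃ Λ : ℂ → ℂ, Differentiable ℂ Λ ∧
    (∀ s : ℂ, (3 : ℝ) / 2 < s.re → HasProd (factor (K := K) (A D) (B D) s) (Λ s)) ∧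
    analyticOrderAt Λ 1 = 0 ∧ Λ 1 ≠ 0

/-- the elements of `Ш(E_D/K)` of order a power of two are killed by `[K : ℚ]` -/
def ShaKilled (D : ℕ) (K : Type) [Field K] [NumberField K] : Prop :=
  ∀ (k : ℕ) (x : Sha (curve D K)), 2 ^ k • x = 0 → Module.finrank ℚ K • x = 0

/-- the primes `q ≡ 1 mod 4` that are inert in `ℚ(√-7)` and squares modulo the prime factors of `D` and
the elements of `P` that split in `ℚ(√-7)` -/
def TowerPrime (P : Finset ℕ) (D q : ℕ) : Prop :=
  q.Prime ∧ q % 4 = 1 ∧ (q % 7 = 3 ∨ q % 7 = 5 ∨ q % 7 = 6) ∧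
    ∀ p ∈ D.primeFactors ∪ P, (p % 7 = 1 ∨ p % 7 = 2 ∨ p % 7 = 4) → IsSquare (q : ZMod p)

/-- the field generated by the square roots of the elements of `P` and of the tower primes -/
noncomputable def Tower (P : Finset ℕ) (D : ℕ) : IntermediateField ℚ ℂ :=
  IntermediateField.adjoin ℚ {z : ℂ | ∃ q : ℕ, (q ∈ P ∨ TowerPrime P D q) ∧ z ^ 2 = (q : ℂ)}

/-- over all the number fields `K` in the tower the central order of `E_D` is zero, `E_D(K)` is finite,
and the degree kills the `2`-primary part of `Ш` -/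
def AllFields (P : Finset ℕ) (D : ℕ) : Prop :=
  ∀ K : IntermediateField ℚ ℂ, K ≤ Tower P D → FiniteDimensional ℚ K → ∃ _ : NumberField K,
    OrderZero D K ∧ Finite (curve D K).toAffine.Point ∧ ShaKilled D K

/-- the class of the numbers `D` -/
def Class (D : ℕ) : Prop := Squarefree D ∧ ∀ p ∈ D.primeFactors, p % 4 = 1

/-- the squarefree part of `M D`, for squarefree `M` and `D` -/
def tw (M D : ℕ) : ℕ := M * D / Nat.gcd M D ^ 2

/-- the numbers `tw (∏ S) M`, `S ⊆ P` -/
noncomputable def orbit (P : Finset ℕ) (M : ℕ) : Finset ℕ :=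
  P.powerset.image fun S => tw (∏ q ∈ S, q) M

/-- `E_D(ℚ)` is finite and `Ш(E_D/ℚ)` has no element of order two -/
def TrivialTwo (D : ℕ) : Prop :=
  Finite (curve D ℚ).toAffine.Point ∧ ∀ x : Sha (curve D ℚ), 2 • x = 0 → x = 0

/-- the twists of `E_D` by all the products of different elements of `P` have trivial `2`-parts -/
def Trivial (P : Finset ℕ) (D : ℕ) : Prop := ∀ S, S ⊆ P → TrivialTwo (tw (∏ q ∈ S, q) D)

/-- the rational numbers `t` of height at most `X`, the height being odd and squarefree, with the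
property `Q` of the height -/
def Params (Q : ℕ → Prop) (X : ℕ) : Set ℚ :=
  {t | height t ≤ X ∧ Odd (height t) ∧ Squarefree (height t) ∧ Q (height t)}

/-- `∏_{i ≥ 0} (1 - 2^{-(2i+1)})` -/
noncomputable def c : ℝ := ∏' i : ℕ, (1 - (1 / 2 : ℝ) ^ (2 * i + 1))

section proof

open scoped symmDiff
open Pool.Agent.U80.MQ (QD)
open Pool.Agent.U80.FT
open Pool.Agent.Results.MP_4a9ea6_nt.TwoPartTwistsX49 (Adm mat)

theorem tp_iff (P : Finset ℕ) (D q : ℕ) : TowerPrime P D q ↔ QP P D q := by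
  have h1 := Pool.Agent.Results.MP_32c55d_nt.InertTowersX49.tp_iff D q
  unfold QP
  rw [← h1]
  unfold TowerPrime Pool.Agent.Results.MP_32c55d_nt.InertTowersX49.TowerPrime
    Pool.Agent.R413.SQ.mk
  constructor
  · rintro ⟨a1, a2, a3, a4⟩
    refine ⟨⟨a1, a2, a3, fun p hp hm => a4 p (Finset.mem_union_left _ hp) hm⟩, fun p hp hm => ?_⟩
    refine a4 p (Finset.mem_union_right _ hp) ?_
    by_contra hc
    rw [if_neg hc] at hm
    exact absurd hm (by norm_num)
  · rintro ⟨⟨a1, a2, a3, a4⟩, a5⟩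
    refine ⟨a1, a2, a3, fun p hp hm => ?_⟩
    rcases Finset.mem_union.1 hp with h | h
    · exact a4 p h hm
    · exact a5 p h (if_pos hm)

theorem tower_eq (P : Finset ℕ) (D : ℕ) : Tower P D = KP P D := by
  unfold Tower KP
  simp only [tp_iff]

theorem triv_iff {D : ℕ} (hD : Adm D) : TrivialTwo D ↔ (mat D).det ≠ 0 :=
  Pool.Agent.R413.SQ.Cor.crit hD

theorem all_of {P : Finset ℕ} (hP : ∀ q ∈ P, q.Prime ∧ q % 4 = 1) {D : ℕ} (hD : Adm D)
    (h : Trivial P D) : AllFields P D := by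
  intro K hK hfd
  have hN : NumberField K := { to_charZero := inferInstance, to_finiteDimensional := hfd }
  rw [tower_eq] at hK
  obtain ⟨h1, ⟨G, g1, g2, g3⟩, h3⟩ := fields hP hD (fun S hS =>
    (triv_iff (adm_tw' (fun q hq => hP q (hS hq)) hD).1).1 (h S hS)) K hK
  exact ⟨hN, ⟨G, g1, fun s hs => g2 s hs, (g1.analyticAt 1).analyticOrderAt_eq_zero.2 g3, g3⟩, h1,
    fun k x hx => h3 k x hx⟩

theorem tw_tw {P : Finset ℕ} (hP : ∀ q ∈ P, q.Prime ∧ q % 4 = 1) {M D : ℕ} (hM : Adm M) (hD : Adm D) :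
    tw (tw (∏ q ∈ P, q) M) D = tw (∏ q ∈ P, q) (tw M D) := by
  obtain ⟨h1, h2⟩ := adm_tw' hP hM
  have h3 : Adm (tw M D) := Pool.Agent.R413.SQ.Joint.adm_tw hM hD
  obtain ⟨h4, h5⟩ := adm_tw' hP h3
  have h6 : (tw M D).primeFactors = D.primeFactors ∆ M.primeFactors :=
    Pool.Agent.R413.SQ.Joint.tw_pf hM hD
  refine adm_eq (Pool.Agent.R413.SQ.Joint.adm_tw h1 hD) h4 ?_
  have h7 : (tw (tw (∏ q ∈ P, q) M) D).primeFactors =
      D.primeFactors ∆ (tw (∏ q ∈ P, q) M).primeFactors :=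
    Pool.Agent.R413.SQ.Joint.tw_pf h1 hD
  refine h7.trans (Eq.trans ?_ h5.symm)
  have h8 : (tw (∏ q ∈ P, q) M).primeFactors = M.primeFactors ∆ P := h2
  rw [h8, h6, symmDiff_assoc]

theorem adm_orbit {P : Finset ℕ} (hP : ∀ q ∈ P, q.Prime ∧ q % 4 = 1) {M : ℕ} (hM : Adm M) {x : ℕ}
    (hx : x ∈ orbit P M) : Adm x := by
  obtain ⟨S, hS, rfl⟩ := Finset.mem_image.1 hx
  exact (adm_tw' (fun q hq => hP q (Finset.mem_powerset.1 hS hq)) hM).1

theorem orbit_card {P : Finset ℕ} (hP : ∀ q ∈ P, q.Prime ∧ q % 4 = 1) {M : ℕ} (hM : Adm M) :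
    (orbit P M).card = 2 ^ P.card := by
  unfold orbit
  rw [Finset.card_image_of_injOn, Finset.card_powerset]
  intro S hS S' hS' h
  have hS1 := Finset.mem_powerset.1 (Finset.mem_coe.1 hS)
  have hS2 := Finset.mem_powerset.1 (Finset.mem_coe.1 hS')
  have h1 : tw (∏ q ∈ S, q) M = tw (∏ q ∈ S', q) M := h
  have h2 : (tw (∏ q ∈ S, q) M).primeFactors = M.primeFactors ∆ S :=
    (adm_tw' (fun q hq => hP q (hS1 hq)) hM).2
  have h3 : (tw (∏ q ∈ S', q) M).primeFactors = M.primeFactors ∆ S' :=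
    (adm_tw' (fun q hq => hP q (hS2 hq)) hM).2
  rw [h1, h3] at h2
  exact (symmDiff_right_injective M.primeFactors h2).symm

theorem orbit_disj {P : Finset ℕ} (hP : ∀ q ∈ P, q.Prime ∧ q % 4 = 1) {M N : ℕ} (hM : Adm M)
    (hN : Adm N) (h : N ∉ orbit P M) : Disjoint (orbit P M) (orbit P N) := by
  rw [Finset.disjoint_left]
  intro x hx hx'
  obtain ⟨S, hS, rfl⟩ := Finset.mem_image.1 hx
  obtain ⟨S', hS', h1⟩ := Finset.mem_image.1 hx'
  have hS1 := Finset.mem_powerset.1 hS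
  have hS2 := Finset.mem_powerset.1 hS'
  apply h
  have hU : symmDiff S S' ⊆ P := by
    intro p hp
    rcases Finset.mem_symmDiff.1 hp with h | h
    · exact hS1 h.1
    · exact hS2 h.1
  refine Finset.mem_image.2 ⟨symmDiff S S', Finset.mem_powerset.2 hU, ?_⟩
  have h1' : tw (∏ q ∈ S', q) N = tw (∏ q ∈ S, q) M := h1
  have h2 : (tw (∏ q ∈ S', q) N).primeFactors = N.primeFactors ∆ S' :=
    (adm_tw' (fun q hq => hP q (hS2 hq)) hN).2
  have h3 : (tw (∏ q ∈ S, q) M).primeFactors = M.primeFactors ∆ S :=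
    (adm_tw' (fun q hq => hP q (hS1 hq)) hM).2
  have h4 : (tw (∏ q ∈ symmDiff S S', q) M).primeFactors = M.primeFactors ∆ (S ∆ S') :=
    (adm_tw' (fun q hq => hP q (hU hq)) hM).2
  refine adm_eq (adm_tw' (fun q hq => hP q (hU hq)) hM).1 hN ?_
  refine Eq.trans h4 ?_
  rw [h1', h3] at h2
  rw [← symmDiff_assoc, h2, symmDiff_assoc, symmDiff_self, symmDiff_bot]

/-- the condition on the orbit -/
theorem triv_orbit {P : Finset ℕ} (hP : ∀ q ∈ P, q.Prime ∧ q % 4 = 1) {M D : ℕ} (hM : Adm M)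
    (hD : Adm D) : Trivial P (tw M D) ↔ ∀ x ∈ orbit P M, TrivialTwo (tw x D) := by
  constructor
  · intro h x hx
    obtain ⟨S, hS, rfl⟩ := Finset.mem_image.1 hx
    have hS' := Finset.mem_powerset.1 hS
    rw [tw_tw (fun q hq => hP q (hS' hq)) hM hD]
    exact h S hS'
  · intro h S hS
    have h1 := h _ (Finset.mem_image_of_mem _ (Finset.mem_powerset.2 hS))
    rwa [tw_tw (fun q hq => hP q (hS hq)) hM hD] at h1

theorem fin_par (Q : ℕ → Prop) (X : ℕ) : (Params Q X).Finite :=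
  (Pool.Agent.U80.WQ.finite_ht X).subset fun t ht => ht.1

theorem par_sub {U : Finset ℕ} (hU : ∀ M ∈ U, Adm M) (X : ℕ) :
    Params (fun D => ∀ x ∈ U, TrivialTwo (tw x D)) X =
      Pool.Agent.Results.MP_696deb_nt.SumsOfTwoSquares.Params
        (Pool.Agent.Results.MP_696deb_nt.SumsOfTwoSquares.Pattern U U) X := by
  ext t
  constructor
  · rintro ⟨h1, h2, h3, h4⟩
    exact ⟨h1, h2, h3, fun M hM => ⟨fun _ => hM, fun _ => h4 M hM⟩⟩
  · rintro ⟨h1, h2, h3, h4⟩
    exact ⟨h1, h2, h3, fun M hM => (h4 M hM).2 hM⟩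

/-- the law of a finite set of twists -/
theorem law1 {U : Finset ℕ} (hU : ∀ M ∈ U, Adm M) :
    Tendsto (fun X : ℕ => ((Params (fun D => ∀ x ∈ U, TrivialTwo (tw x D)) X).ncard : ℝ) /
      ((Params (fun _ => True) X).ncard : ℝ)) atTop (𝓝 (c ^ U.card)) := by
  have h := Pool.Agent.U80.WQ.joint_t hU (Finset.Subset.refl U)
  rw [Finset.sdiff_self, Finset.card_empty, pow_zero, mul_one] at h
  refine h.congr fun X => ?_
  rw [← Pool.Agent.Results.MP_696deb_nt.SumsOfTwoSquares.par_pat hU,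
    ← Pool.Agent.Results.MP_696deb_nt.SumsOfTwoSquares.par_all, par_sub hU]
  rfl

open Pool.Agent.U115.GE (pr)

/-- the codes of the parameters -/
noncomputable def codes (X : ℕ) : Finset ℕ :=
  (fin_par (fun _ => True) X).toFinset.image Encodable.encode

theorem pr_codes (R : ℕ → Prop) (Q : ℕ → Prop)
    (h : ∀ t : ℚ, Odd (height t) → Squarefree (height t) → (R (Encodable.encode t) ↔ Q (height t)))
    (X : ℕ) : pr (codes X) R = ((Params Q X).ncard : ℝ) / ((Params (fun _ => True) X).ncard : ℝ) := by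
  unfold pr codes
  have h1 : (((fin_par (fun _ => True) X).toFinset.image Encodable.encode).filter R) =
      (fin_par Q X).toFinset.image Encodable.encode := by
    ext n
    simp only [Finset.mem_filter, Finset.mem_image, Set.Finite.mem_toFinset]
    constructor
    · rintro ⟨⟨t, ⟨a1, a2, a3, -⟩, rfl⟩, h2⟩
      exact ⟨t, ⟨a1, a2, a3, (h t a2 a3).1 h2⟩, rfl⟩
    · rintro ⟨t, ⟨a1, a2, a3, a4⟩, rfl⟩
      exact ⟨⟨t, ⟨a1, a2, a3, trivial⟩, rfl⟩, (h t a2 a3).2 a4⟩
  rw [h1, Finset.card_image_of_injective _ Encodable.encode_injective,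
    Finset.card_image_of_injective _ Encodable.encode_injective,
    Set.ncard_eq_toFinset_card _ (fin_par Q X), Set.ncard_eq_toFinset_card _ (fin_par _ X)]

/-- the exact law -/
theorem law2 {P : Finset ℕ} (hP : ∀ q ∈ P, q.Prime ∧ q % 4 = 1) {T V : Finset ℕ}
    (hT : ∀ M ∈ T, Adm M) (hd : ∀ M ∈ T, ∀ M' ∈ T, M ≠ M' → M' ∉ orbit P M) (hV : V ⊆ T) :
    Tendsto (fun X : ℕ => ((Params (fun D => ∀ M ∈ T, (Trivial P (tw M D) ↔ M ∈ V)) X).ncard : ℝ) /
      ((Params (fun _ => True) X).ncard : ℝ)) atTop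
      (𝓝 ((c ^ 2 ^ P.card) ^ V.card * (1 - c ^ 2 ^ P.card) ^ (T.card - V.card))) := by
  have key : ∀ t : ℚ, ∀ m : ℕ,
      ((∃ t' : ℚ, Encodable.encode t' = Encodable.encode t ∧ Trivial P (tw m (height t'))) ↔
        Trivial P (tw m (height t))) := by
    intro t m
    constructor
    · rintro ⟨t', h1, h2⟩
      rwa [Encodable.encode_injective h1] at h2
    · intro h
      exact ⟨t, rfl, h⟩
  have h1 : ∀ U ⊆ T, Tendsto (fun X => pr (codes X) (fun n => ∀ m ∈ U,
      (∃ t : ℚ, Encodable.encode t = n ∧ Trivial P (tw m (height t))))) atTop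
      (𝓝 ((c ^ 2 ^ P.card) ^ U.card)) := by
    intro U hU
    have hUa : ∀ m ∈ U.biUnion (orbit P), Adm m := by
      intro m hm
      obtain ⟨M, hM, hm'⟩ := Finset.mem_biUnion.1 hm
      exact adm_orbit hP (hT M (hU hM)) hm'
    have h2 := law1 hUa
    have h3 : (U.biUnion (orbit P)).card = 2 ^ P.card * U.card := by
      rw [Finset.card_biUnion fun M hM M' hM' hne =>
        orbit_disj hP (hT M (hU hM)) (hT M' (hU hM')) (hd M (hU hM) M' (hU hM') hne)]
      rw [Finset.sum_congr rfl fun M hM => orbit_card hP (hT M (hU hM)), Finset.sum_const,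
        smul_eq_mul, mul_comm]
    rw [h3, pow_mul] at h2
    refine h2.congr fun X => (pr_codes _ _ (fun t a2 a3 => ?_) X).symm
    have hD := Pool.Agent.Results.MP_696deb_nt.SumsOfTwoSquares.adm_of a2 a3
    constructor
    · intro h x hx
      obtain ⟨M, hM, hx'⟩ := Finset.mem_biUnion.1 hx
      exact (triv_orbit hP (hT M (hU hM)) hD).1 ((key t M).1 (h M hM)) x hx'
    · intro h M hM
      exact (key t M).2 ((triv_orbit hP (hT M (hU hM)) hD).2 fun x hx =>
        h x (Finset.mem_biUnion.2 ⟨M, hM, hx⟩))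
  refine (Pool.Agent.U115.GE.exact_law h1 hV).congr fun X => ?_
  refine pr_codes _ _ (fun t a2 a3 => ?_) X
  refine forall₂_congr fun M hM => ?_
  exact iff_congr (key t M) Iff.rfl

theorem triv_all {P : Finset ℕ} (hP : ∀ q ∈ P, q.Prime ∧ q % 4 = 1) {T : Finset ℕ}
    (hT : ∀ M ∈ T, Adm M) {D : ℕ} (hD : Adm D)
    (h : ∀ x ∈ T.biUnion (orbit P), TrivialTwo (tw x D)) : ∀ M ∈ T, AllFields P (tw M D) := by
  intro M hM
  refine all_of hP (Pool.Agent.R413.SQ.Joint.adm_tw (hT M hM) hD) ?_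
  exact (triv_orbit hP (hT M hM) hD).2 fun x hx => h x (Finset.mem_biUnion.2 ⟨M, hM, hx⟩)

theorem pos_all {P : Finset ℕ} (hP : ∀ q ∈ P, q.Prime ∧ q % 4 = 1) {T : Finset ℕ}
    (hT : ∀ M ∈ T, Adm M) :
    ∃ (c : ℝ) (X₀ : ℕ), 0 < c ∧ ∀ X : ℕ, X₀ ≤ X →
      c * X ≤ ({t : ℚ | height t ≤ X ∧ ∀ M ∈ T, AllFields P (tw M (height t))}.ncard : ℝ) := by
  have hU : ∀ m ∈ T.biUnion (orbit P), Adm m := by
    intro m hm
    obtain ⟨M, hM, hm'⟩ := Finset.mem_biUnion.1 hm
    exact adm_orbit hP (hT M hM) hm'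
  obtain ⟨c, X₀, hc0, h⟩ := Pool.Agent.U80.WQ.joint_count hU (Finset.Subset.refl _)
  refine ⟨c, X₀, hc0, fun X hX => ?_⟩
  have h1 := h X hX
  rw [← Pool.Agent.Results.MP_696deb_nt.SumsOfTwoSquares.par_pat hU, ← par_sub hU] at h1
  have h3 : (Params (fun D => ∀ x ∈ T.biUnion (orbit P), TrivialTwo (tw x D)) X).ncard ≤
      {t : ℚ | height t ≤ X ∧ ∀ M ∈ T, AllFields P (tw M (height t))}.ncard := by
    refine Set.ncard_le_ncard (fun t ht => ⟨ht.1, ?_⟩)
      ((Pool.Agent.U80.WQ.finite_ht X).subset fun t ht => ht.1)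
    exact triv_all hP hT
      (Pool.Agent.Results.MP_696deb_nt.SumsOfTwoSquares.adm_of ht.2.1 ht.2.2.1) ht.2.2.2
  exact h1.trans (by exact_mod_cast h3)

end proof

/-- **Theorem.** `P` is a finite set of primes `≡ 1 mod 4`.
(1) For `D` in the class there are infinitely many tower primes, and if `TrivialTwo` holds for all the
twists of `E_D` by products of different elements of `P`, then `AllFields P D`.
(2) Let `T` be a finite subset of the class. Among the `t` with odd squarefree height the lower proportion of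
those with `AllFields P (tw M (height t))` for all `M ∈ T` is at least `c ^ N`, `N` the number of the
different numbers `tw (∏ S) M`, `S ⊆ P`, `M ∈ T`; and the proportion of these `t` among ALL rational numbers
is positive, by the height and by `max (|a|, |b|)`.
(3) If the elements of `T` are different modulo the products of subsets of `P`, then for every `V ⊆ T` and
exactly the proportion `γ ^ |V| (1 - γ) ^ |T \ V|`, `γ = c ^ (2 ^ |P|)`, of the `t` with odd squarefree
height, `V` is the set of the `M ∈ T` with `Trivial P (tw M (height t))`. -/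
theorem result (P : Finset ℕ) (hP : ∀ p ∈ P, p.Prime ∧ p % 4 = 1) :
    (∀ D : ℕ, Class D → {q : ℕ | TowerPrime P D q}.Infinite ∧ (Trivial P D → AllFields P D)) ∧
    (∀ T : Finset ℕ, (∀ M ∈ T, Class M) →
      (∀ ε : ℝ, 0 < ε → ∃ X₀ : ℕ, ∀ X : ℕ, X₀ ≤ X →
        (c ^ (T.biUnion (orbit P)).card - ε) * ((Params (fun _ => True) X).ncard : ℝ) ≤
          ((Params (fun D => ∀ M ∈ T, AllFields P (tw M D)) X).ncard : ℝ)) ∧
      ∃ (a : ℝ) (X₀ : ℕ), 0 < a ∧ ∀ X : ℕ, X₀ ≤ X →
        a * ({t : ℚ | height t ≤ X}.ncard : ℝ) ≤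
          ({t : ℚ | height t ≤ X ∧ ∀ M ∈ T, AllFields P (tw M (height t))}.ncard : ℝ) ∧
        a * ({t : ℚ | max t.num.natAbs t.den ≤ X}.ncard : ℝ) ≤
          ({t : ℚ | max t.num.natAbs t.den ≤ X ∧
            ∀ M ∈ T, AllFields P (tw M (height t))}.ncard : ℝ)) ∧
    (∀ T V : Finset ℕ, (∀ M ∈ T, Class M) → (∀ M ∈ T, ∀ M' ∈ T, M ≠ M' → M' ∉ orbit P M) → V ⊆ T →
      Tendsto (fun X : ℕ =>
          ((Params (fun D => ∀ M ∈ T, (Trivial P (tw M D) ↔ M ∈ V)) X).ncard : ℝ) /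
          ((Params (fun _ => True) X).ncard : ℝ)) atTop
        (𝓝 ((c ^ 2 ^ P.card) ^ V.card * (1 - c ^ 2 ^ P.card) ^ (T.card - V.card)))) ∧
    0.4194 < c ∧ c < 0.4195 := by
  have hc1 : 0.4194 < c := Pool.Agent.Y948.CQ.t_C2.2.2.2.1
  have hc2 : c < 0.4195 := Pool.Agent.Y948.CQ.t_C2.2.2.2.2
  refine ⟨fun D hD => ⟨?_, all_of hP hD⟩, fun T hT => ⟨fun ε hε => ?_, ?_⟩,
    fun T V hT hd hV => law2 hP hT hd hV, hc1, hc2⟩
  · have h := Pool.Agent.U80.FT.QP_inf hP hD
    refine h.mono fun q hq => ?_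
    exact (tp_iff P D q).2 hq
  · have hU : ∀ m ∈ T.biUnion (orbit P), Pool.Agent.Results.MP_4a9ea6_nt.TwoPartTwistsX49.Adm m := by
      intro m hm
      obtain ⟨M, hM, hm'⟩ := Finset.mem_biUnion.1 hm
      exact adm_orbit hP (hT M hM) hm'
    have h := law1 hU
    have hlt : c ^ (T.biUnion (orbit P)).card - ε < c ^ (T.biUnion (orbit P)).card := sub_lt_self _ hε
    obtain ⟨X₀, hX₀⟩ := Filter.eventually_atTop.1 (h.eventually (lt_mem_nhds hlt))
    refine ⟨X₀, fun X hX => ?_⟩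
    have h1 := hX₀ X hX
    have h2 : (Params (fun D => ∀ x ∈ T.biUnion (orbit P), TrivialTwo (tw x D)) X).ncard ≤
        (Params (fun D => ∀ M ∈ T, AllFields P (tw M D)) X).ncard := by
      refine Set.ncard_le_ncard (fun t ht => ⟨ht.1, ht.2.1, ht.2.2.1, ?_⟩) (fin_par _ X)
      exact triv_all hP hT
        (Pool.Agent.Results.MP_696deb_nt.SumsOfTwoSquares.adm_of ht.2.1 ht.2.2.1) ht.2.2.2
    have h3 : ((Params (fun D => ∀ x ∈ T.biUnion (orbit P), TrivialTwo (tw x D)) X).ncard : ℝ) ≤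
        ((Params (fun D => ∀ M ∈ T, AllFields P (tw M D)) X).ncard : ℝ) := by
      exact_mod_cast h2
    refine le_trans ?_ h3
    have h4 : (0 : ℝ) ≤ ((Params (fun _ => True) X).ncard : ℝ) := Nat.cast_nonneg _
    rcases h4.eq_or_lt with h5 | h5
    · rw [← h5, mul_zero]
      exact Nat.cast_nonneg _
    · exact ((lt_div_iff₀ h5).1 h1).le
  · obtain ⟨c, X₀, hc0, h⟩ := pos_all hP hT
    refine ⟨c / 6, X₀ + 1, by positivity, fun X hX => ⟨?_, ?_⟩⟩
    · have h1 := h X (by omega)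
      have h2 : ({t : ℚ | height t ≤ X}.ncard : ℝ) ≤ 3 * X := Pool.Agent.U80.WQ.total_t X
      refine le_trans ?_ h1
      have h3 : (0 : ℝ) ≤ X := Nat.cast_nonneg X
      calc c / 6 * ({t : ℚ | height t ≤ X}.ncard : ℝ) ≤ c / 6 * (3 * X) :=
            mul_le_mul_of_nonneg_left h2 (by positivity)
        _ ≤ c * X := by nlinarith
    · have hX1 : X ≤ X ^ 2 := Nat.le_self_pow (by norm_num) X
      have h1 := h (X ^ 2) (by omega)
      have h2 : ({t : ℚ | max t.num.natAbs t.den ≤ X}.ncard : ℝ) ≤ 6 * X ^ 2 :=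
        Pool.Agent.Results.MP_696deb_nt.SumsOfTwoSquares.box_card (by omega)
      have h3 : {t : ℚ | height t ≤ X ^ 2 ∧ ∀ M ∈ T, AllFields P (tw M (height t))} ⊆
          {t : ℚ | max t.num.natAbs t.den ≤ X ∧ ∀ M ∈ T, AllFields P (tw M (height t))} := by
        rintro t ⟨h4, h5⟩
        refine ⟨?_, h5⟩
        have h6 : t.num.natAbs ^ 2 + t.den ^ 2 ≤ X ^ 2 := h4
        refine max_le ?_ ?_
        · exact (Nat.pow_le_pow_iff_left (by norm_num : (2 : ℕ) ≠ 0)).1 (by omega)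
        · exact (Nat.pow_le_pow_iff_left (by norm_num : (2 : ℕ) ≠ 0)).1 (by omega)
      have h4 := Set.ncard_le_ncard h3
        ((Pool.Agent.Results.MP_696deb_nt.SumsOfTwoSquares.box_fin X).subset fun t ht => ht.1)
      have h5 : ({t : ℚ | height t ≤ X ^ 2 ∧ ∀ M ∈ T, AllFields P (tw M (height t))}.ncard : ℝ) ≤
          ({t : ℚ | max t.num.natAbs t.den ≤ X ∧
            ∀ M ∈ T, AllFields P (tw M (height t))}.ncard : ℝ) := by
        exact_mod_cast h4
      push_cast at h1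
      refine le_trans ?_ (h1.trans h5)
      calc c / 6 * ({t : ℚ | max t.num.natAbs t.den ≤ X}.ncard : ℝ) ≤ c / 6 * (6 * X ^ 2) :=
            mul_le_mul_of_nonneg_left h2 (by positivity)
        _ = c * X ^ 2 := by ring

end Pool.Agent.Results.MP_50bb2e_nt.NormFormTwistsTowers
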