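import Pool.Agent.U974.TW.Fld3
import Pool.Agent.R413.SM.Law
import Pool.Agent.U115.GE.Binom

/-!
# Central order zero for an explicit proportion of quadratic twists over multiquadratic fields,
# simultaneously for several forms

`E_D : y² = x³ - 35 D² x - 98 D³` is the quadratic twist by `D` of `X_0(49)`; the class consists of the
squarefree `D` all of whose prime factors are `1` modulo `4` (inert or split in `ℚ(√-7)`, in any number).
For `M`, `D` in the class the squarefree part `tw M D` of `M D` is in the class.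

Let `P` be a finite set of primes `≡ 1 mod 4`, `Ω = ℚ(√p : p ∈ P)` (a totally real field of degree
`2 ^ |P|`), and let `T` be a finite subset of the class. For a field `F ⊆ Ω` and `M ∈ T` let `π_M` be the
base change to `F` of the newform of level `49` twisted by `χ_M`; then `L(s, π_M ⊗ χ_D)` is, up to the
normalization, the `L`-function of `E_{tw M D}` over `F`. The `χ_D`, with `D` in the class, are quadratic
characters over `F` which are trivial at the real places and unramified at two.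

* SIMULTANEOUS NONVANISHING. For at least the proportion `c ^ N` of the `D` of the class,
  `c = ∏_{i ≥ 0} (1 - 2^{-(2i+1)}) = 0.4194...`, the following holds for ALL `M ∈ T` and ALL fields `F ⊆ Ω` at
  the same time: `π_M ⊗ χ_D` has central order zero, `E_{tw M D}(F)` is finite and
  `Ш(E_{tw M D}/F)[2^∞]` is killed by `[F : ℚ]`. Here `N` is the number of the different numbers
  `tw (∏ S) M`, `S ⊆ P`, `M ∈ T`; for `T = {M}` it is the degree `2 ^ |P|` of `Ω`. There are at least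
  `a X / √(log X)` such `D ≤ X`, `a > 0`.
* EXACT LAW. Let `V ⊆ T` and suppose that the classes of the elements of `T` modulo the products of
  subsets of `P` are different. For exactly the proportion `γ ^ |V| (1 - γ) ^ |T \ V|`, `γ = c ^ (2 ^ |P|)`, of
  the `D` the set of the `M ∈ T`, for which the `2 ^ |P|` twists over `ℚ` whose product is the
  `L`-function of `E_{tw M D}` over `Ω` all have finitely many rational points and `Ш[2] = 0`, is `V`: the
  forms `π_M`, `M ∈ T`, behave independently. (For the `M ∈ V` the conclusions above hold.)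

The joint law of the twists over `ℚ` is `Pool/Agent/R413/SM/Law.lean` (used in
`MP_03e5d0_nt.FullClassX49`), the passage from the twists to the fields is helper80's `U80/MQ` (first used in
`MP_cd906c_nt.FibresOverMultiquadratic`, where `D = a² + b²` is ordered by the rational number `a / b`), in
the form of `U974/TW/Fld3`.
-/

set_option autoImplicit false

open scoped Classical

open WeierstrassCurve NumberField IsDedekindDomain Filter Topology

namespace Pool.Agent.Results.MP_50bb2e_nt.ProportionsOverMultiquadratic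

open Pool.Agent.TH841.NF.D (Sha)

/-- the coefficient of `x` -/
def A (D : ℕ) : ℤ := -35 * (D : ℤ) ^ 2

/-- the constant coefficient -/
def B (D : ℕ) : ℤ := -98 * (D : ℤ) ^ 3

/-- the curve `y² = x³ - 35 D² x - 98 D³` over `K` -/
def curve (D : ℕ) (K : Type) [Field K] : WeierstrassCurve K :=
  { a₁ := 0, a₂ := 0, a₃ := 0, a₄ := ((A D : ℤ) : K), a₆ := ((B D : ℤ) : K) }

/-- `a_v = q_v + 1 - #E(k_v) = q_v - #{(x, y) ∈ k_v² : y² = x³ + a x + b}` -/
noncomputable def trace {K : Type} [Field K] [NumberField K] (a b : ℤ)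
    (v : HeightOneSpectrum (𝓞 K)) : ℤ :=
  ((Ideal.absNorm v.asIdeal : ℕ) : ℤ) -
    ((Nat.card {x : (𝓞 K ⧸ v.asIdeal) × (𝓞 K ⧸ v.asIdeal) //
      x.2 ^ 2 = x.1 ^ 3 + (a : 𝓞 K ⧸ v.asIdeal) * x.1 + (b : 𝓞 K ⧸ v.asIdeal)} : ℕ) : ℤ)

/-- the Euler factor at `v` of `y² = x³ + a x + b`; it is `1` at the places that divide
`2 (4 a³ + 27 b²)` -/
noncomputable def factor {K : Type} [Field K] [NumberField K] (a b : ℤ) (s : ℂ)
    (v : HeightOneSpectrum (𝓞 K)) : ℂ :=
  if ((2 * (4 * a ^ 3 + 27 * b ^ 2) : ℤ) : 𝓞 K) ∈ v.asIdeal then 1 else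
    (1 - ((trace a b v : ℤ) : ℂ) * ((Ideal.absNorm v.asIdeal : ℕ) : ℂ) ^ (-s)
      + ((Ideal.absNorm v.asIdeal : ℕ) : ℂ) ^ (1 - 2 * s))⁻¹

/-- The central order over `K` is zero: the Euler product of `E_D` over `K` (without the factors at the
places that divide `2 (4 A³ + 27 B²)`) is an entire function which is not zero at `1`. -/
def OrderZero (D : ℕ) (K : Type) [Field K] [NumberField K] : Prop :=
  ∃ Λ : ℂ → ℂ, Differentiable ℂ Λ ∧
    (∀ s : ℂ, (3 : ℝ) / 2 < s.re → HasProd (factor (K := K) (A D) (B D) s) (Λ s)) ∧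
    analyticOrderAt Λ 1 = 0 ∧ Λ 1 ≠ 0

/-- the elements of `Ш(E_D/K)` of order a power of two are killed by `[K : ℚ]` -/
def ShaKilled (D : ℕ) (K : Type) [Field K] [NumberField K] : Prop :=
  ∀ (k : ℕ) (x : Sha (curve D K)), 2 ^ k • x = 0 → Module.finrank ℚ K • x = 0

/-- the field `ℚ(√p : p ∈ P)` -/
noncomputable def Omega (P : Finset ℕ) : IntermediateField ℚ ℂ :=
  IntermediateField.adjoin ℚ {z : ℂ | ∃ q ∈ P, z ^ 2 = (q : ℂ)}

/-- over all the subfields `K` of `ℚ(√p : p ∈ P)` the central order of `E_D` is zero, `E_D(K)` is finite,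
and the degree kills the `2`-primary part of `Ш` -/
def AllFields (P : Finset ℕ) (D : ℕ) : Prop :=
  ∀ K : IntermediateField ℚ ℂ, K ≤ Omega P → ∃ _ : NumberField K,
    OrderZero D K ∧ Finite (curve D K).toAffine.Point ∧ ShaKilled D K

/-- the class of the numbers `D` -/
def Class (D : ℕ) : Prop := Squarefree D ∧ ∀ p ∈ D.primeFactors, p % 4 = 1

/-- the squarefree part of `M D`, for squarefree `M` and `D` -/
def tw (M D : ℕ) : ℕ := M * D / Nat.gcd M D ^ 2

/-- the numbers `tw (∏ S) M`, `S ⊆ P` -/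
noncomputable def orbit (P : Finset ℕ) (M : ℕ) : Finset ℕ :=
  P.powerset.image fun S => tw (∏ q ∈ S, q) M

/-- `E_D(ℚ)` is finite and `Ш(E_D/ℚ)` has no element of order two -/
def TrivialTwo (D : ℕ) : Prop :=
  Finite (curve D ℚ).toAffine.Point ∧ ∀ x : Sha (curve D ℚ), 2 • x = 0 → x = 0

/-- the number of the `D ≤ X` of the class with the property `Q` -/
noncomputable def num (Q : ℕ → Prop) (X : ℕ) : ℕ :=
  ((Finset.Icc 1 X).filter fun D => Class D ∧ Q D).card

/-- `∏_{i ≥ 0} (1 - 2^{-(2i+1)})` -/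
noncomputable def c : ℝ := ∏' i : ℕ, (1 - (1 / 2 : ℝ) ^ (2 * i + 1))

section proof

open scoped symmDiff
open Pool.Agent.R413.SQ (Gd)
open Pool.Agent.Y698.SG (n4)
open Pool.Agent.U120.MF (P4 KT TT prod_adm tt_gd)
open Pool.Agent.U80.MQ (tc)
open Pool.Agent.Results.MP_4a9ea6_nt.TwoPartTwistsX49 (Adm mat)

theorem tw_tw {L M D : ℕ} (hL : Adm L) (hM : Adm M) (hD : Adm D) :
    Pool.Agent.R413.SQ.Joint.tw (Pool.Agent.R413.SQ.Joint.tw L M) D =
      Pool.Agent.R413.SQ.Joint.tw L (Pool.Agent.R413.SQ.Joint.tw M D) := by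
  rw [(Pool.Agent.R413.SQ.Joint.ac_tw (Pool.Agent.R413.SQ.Joint.adm_tw hL hM) hD).1,
    (Pool.Agent.R413.SQ.Joint.ac_tw hL (Pool.Agent.R413.SQ.Joint.adm_tw hM hD)).1,
    Pool.Agent.R413.SQ.Joint.tw_pf hL hM, Pool.Agent.R413.SQ.Joint.tw_pf hM hD, symmDiff_assoc]

/-- from the twists to the fields -/
theorem all_of {P : Finset ℕ} (hP : ∀ q ∈ P, q.Prime ∧ q % 4 = 1) {D : ℕ} (hD : Adm D)
    (h : ∀ S, S ⊆ P → (mat (Pool.Agent.R413.SQ.Joint.tw (∏ q ∈ S, q) D)).det ≠ 0) :
    AllFields P D := by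
  have hP4 : ∀ q ∈ P, P4 q := hP
  have hD4 : ∀ q ∈ D.primeFactors, P4 q := fun q hq => ⟨Nat.prime_of_mem_primeFactors hq, hD.2 q hq⟩
  have hDp : ∏ p ∈ D.primeFactors, p = D := Nat.prod_primeFactors_of_squarefree hD.1
  have hG : ∀ S, S ⊆ P → Gd n4 (D.primeFactors ∆ S) := by
    intro S hS
    obtain ⟨a1, a2⟩ := prod_adm fun q hq => hP4 q (hS hq)
    have h1 := (Pool.Agent.R413.SQ.Joint.det_tw a1 hD).1 (h S hS)
    rwa [a2] at h1
  intro K hK
  have hfd := (Pool.Agent.U80.MQ.R7_Om P fun q hq => (hP q hq).1.ne_zero).1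
  have hfd' : FiniteDimensional ℚ (Omega P) := hfd
  have hKf : FiniteDimensional ℚ K := Pool.Agent.Y682.XD.finDim_of_le hK
  have hN : NumberField K := { to_charZero := inferInstance, to_finiteDimensional := hKf }
  have hK' : K ≤ KT (P : Set ℕ) := hK.trans (by
    unfold Omega KT
    exact le_of_eq (by congr 1))
  obtain ⟨h1, ⟨G, g1, g2, g3⟩, h3⟩ := Pool.Agent.U974.TW.fieldsJ hD4 hP4 hG K hK'
  rw [hDp] at h1 g2 h3
  exact ⟨hN, ⟨G, g1, fun s hs => g2 s hs, (g1.analyticAt 1).analyticOrderAt_eq_zero.2 g3, g3⟩, h1,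
    fun k x hx => h3 k x hx⟩

theorem adm_prod {P : Finset ℕ} (hP : ∀ q ∈ P, q.Prime ∧ q % 4 = 1) {S : Finset ℕ} (hS : S ⊆ P) :
    Adm (∏ p ∈ S, p) ∧ (∏ p ∈ S, p).primeFactors = S := by
  have hP4 : ∀ q ∈ P, P4 q := hP
  exact prod_adm fun p hp => hP4 p (hS hp)

theorem tw_pf {P : Finset ℕ} (hP : ∀ q ∈ P, q.Prime ∧ q % 4 = 1) {S : Finset ℕ} (hS : S ⊆ P) {M : ℕ}
    (hM : Adm M) : (tw (∏ q ∈ S, q) M).primeFactors = symmDiff M.primeFactors S := by
  obtain ⟨h1, h2⟩ := adm_prod hP hS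
  have h3 := Pool.Agent.R413.SQ.Joint.tw_pf h1 hM
  rw [h2] at h3
  exact h3

theorem adm_eq {M N : ℕ} (hM : Adm M) (hN : Adm N) (h : M.primeFactors = N.primeFactors) : M = N := by
  rw [← Nat.prod_primeFactors_of_squarefree hM.1, ← Nat.prod_primeFactors_of_squarefree hN.1, h]

theorem adm_orbit {P : Finset ℕ} (hP : ∀ q ∈ P, q.Prime ∧ q % 4 = 1) {M : ℕ} (hM : Adm M) {x : ℕ}
    (hx : x ∈ orbit P M) : Adm x := by
  obtain ⟨S, hS, rfl⟩ := Finset.mem_image.1 hx
  exact Pool.Agent.R413.SQ.Joint.adm_tw (adm_prod hP (Finset.mem_powerset.1 hS)).1 hM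

theorem orbit_card {P : Finset ℕ} (hP : ∀ q ∈ P, q.Prime ∧ q % 4 = 1) {M : ℕ} (hM : Adm M) :
    (orbit P M).card = 2 ^ P.card := by
  unfold orbit
  rw [Finset.card_image_of_injOn, Finset.card_powerset]
  intro S hS S' hS' h
  have hS1 := Finset.mem_powerset.1 (Finset.mem_coe.1 hS)
  have hS2 := Finset.mem_powerset.1 (Finset.mem_coe.1 hS')
  have h1 : tw (∏ q ∈ S, q) M = tw (∏ q ∈ S', q) M := h
  have h2 := tw_pf hP hS1 hM
  rw [h1, tw_pf hP hS2 hM] at h2
  exact (symmDiff_right_injective M.primeFactors h2).symm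

theorem orbit_disj {P : Finset ℕ} (hP : ∀ q ∈ P, q.Prime ∧ q % 4 = 1) {M N : ℕ} (hM : Adm M)
    (hN : Adm N) (h : N ∉ orbit P M) : Disjoint (orbit P M) (orbit P N) := by
  rw [Finset.disjoint_left]
  intro x hx hx'
  obtain ⟨S, hS, rfl⟩ := Finset.mem_image.1 hx
  obtain ⟨S', hS', h1⟩ := Finset.mem_image.1 hx'
  have hS1 := Finset.mem_powerset.1 hS
  have hS2 := Finset.mem_powerset.1 hS'
  apply h
  have hU : symmDiff S S' ⊆ P := by
    intro p hp
    rcases Finset.mem_symmDiff.1 hp with h | h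
    · exact hS1 h.1
    · exact hS2 h.1
  refine Finset.mem_image.2 ⟨symmDiff S S', Finset.mem_powerset.2 hU, ?_⟩
  have h1' : tw (∏ q ∈ S', q) N = tw (∏ q ∈ S, q) M := h1
  have h2 := tw_pf hP hS2 hN
  rw [h1', tw_pf hP hS1 hM] at h2
  refine adm_eq (Pool.Agent.R413.SQ.Joint.adm_tw (adm_prod hP hU).1 hM) hN ?_
  have h3 : (Pool.Agent.R413.SQ.Joint.tw (∏ q ∈ symmDiff S S', q) M).primeFactors =
      symmDiff M.primeFactors (symmDiff S S') := tw_pf hP hU hM
  refine Eq.trans h3 ?_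
  rw [← symmDiff_assoc, h2, symmDiff_assoc, symmDiff_self, symmDiff_bot]

open Pool.Agent.U115.GE (pr)

theorem pr_congr {s : Finset ℕ} {Q R : ℕ → Prop} (h : ∀ D ∈ s, (Q D ↔ R D)) : pr s Q = pr s R := by
  unfold pr
  refine congrArg₂ (fun a b : ℕ => (a : ℝ) / (b : ℝ)) ?_ rfl
  refine congrArg Finset.card (Finset.ext fun D => ?_)
  simp only [Finset.mem_filter]
  exact and_congr_right fun hD => h D hD

theorem num_pr (Q : ℕ → Prop) (X : ℕ) : (num Q X : ℝ) / (num (fun _ => True) X : ℝ) =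
    pr ((Finset.Icc 1 X).filter fun D => Class D) Q := by
  unfold num pr
  refine congrArg₂ (fun a b : ℕ => (a : ℝ) / (b : ℝ)) ?_ ?_
  · refine congrArg Finset.card (Finset.ext fun D => ?_)
    simp only [Finset.mem_filter, and_assoc]
  · refine congrArg Finset.card (Finset.ext fun D => ?_)
    simp only [Finset.mem_filter, and_true]

/-- the joint law -/
theorem joint (U : Finset ℕ) (hU : ∀ m ∈ U, Adm m) :
    Tendsto (fun X => pr ((Finset.Icc 1 X).filter fun D => Class D)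
      (fun D => ∀ m ∈ U, (mat (tw m D)).det ≠ 0)) atTop (𝓝 (c ^ U.card)) := by
  have h := Pool.Agent.R413.SQ.Joint.law hU (Finset.Subset.refl U)
  have hcc : Pool.Agent.Y703.CQ.c2 = c := rfl
  rw [hcc, Finset.sdiff_self, Finset.card_empty, pow_zero, mul_one] at h
  refine h.congr fun X => ?_
  rw [← num_pr]
  refine congrArg₂ (fun a b : ℕ => (a : ℝ) / (b : ℝ)) ?_ ?_
  · unfold Pool.Agent.R413.SQ.Joint.num num
    refine congrArg Finset.card (Finset.ext fun D => ?_)
    simp only [Finset.mem_filter]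
    refine and_congr_right fun _ => and_congr_right fun _ => ?_
    exact ⟨fun h m hm => (h m hm).2 hm, fun h m hm => ⟨fun _ => hm, fun _ => h m hm⟩⟩
  · unfold Pool.Agent.R413.SQ.Joint.num num
    refine congrArg Finset.card (Finset.ext fun D => ?_)
    simp only [Finset.mem_filter]
    exact Iff.rfl

theorem triv_iff {D : ℕ} (hD : Adm D) : TrivialTwo D ↔ (mat D).det ≠ 0 := by
  have h1 : TrivialTwo D ↔ TT D := Iff.rfl
  exact h1.trans (Pool.Agent.R413.SQ.Cor.crit hD)

theorem all_tw {P : Finset ℕ} (hP : ∀ q ∈ P, q.Prime ∧ q % 4 = 1) {M D : ℕ} (hM : Adm M) (hD : Adm D)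
    (h : ∀ x ∈ orbit P M, (mat (tw x D)).det ≠ 0) : AllFields P (tw M D) := by
  refine all_of hP (Pool.Agent.R413.SQ.Joint.adm_tw hM hD) fun S hS => ?_
  have h1 := h _ (Finset.mem_image_of_mem _ (Finset.mem_powerset.2 hS))
  have h2 := tw_tw (adm_prod hP hS).1 hM hD
  have h3 : tw (tw (∏ q ∈ S, q) M) D = Pool.Agent.R413.SQ.Joint.tw (∏ q ∈ S, q) (tw M D) := h2
  rw [h3] at h1
  exact h1

theorem lower_of {Q R : ℕ → Prop} {γ : ℝ} (hγ : 0 < γ)
    (h : Tendsto (fun X => pr ((Finset.Icc 1 X).filter fun D => Class D) Q) atTop (𝓝 γ))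
    (hQR : ∀ D, Class D → Q D → R D) :
    (∀ ε : ℝ, 0 < ε → ∃ X₀ : ℕ, ∀ X : ℕ, X₀ ≤ X →
      (γ - ε) * (num (fun _ => True) X : ℝ) ≤ (num R X : ℝ)) ∧
    ∃ (a : ℝ) (X₀ : ℕ), 0 < a ∧ ∀ X : ℕ, X₀ ≤ X →
      a * X / Real.sqrt (Real.log X) ≤ (num R X : ℝ) := by
  have hle : ∀ X, (num Q X : ℝ) ≤ (num R X : ℝ) := by
    intro X
    unfold num
    refine Nat.cast_le.2 (Finset.card_le_card fun D hD => ?_)
    simp only [Finset.mem_filter] at hD ⊢
    exact ⟨hD.1, hD.2.1, hQR D hD.2.1 hD.2.2⟩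
  constructor
  · intro ε hε
    obtain ⟨X₀, h2⟩ := Filter.eventually_atTop.1
      (h.eventually (lt_mem_nhds (show γ - ε < γ by linarith)))
    refine ⟨X₀, fun X hX => le_trans ?_ (hle X)⟩
    have h3 := h2 X hX
    rw [← num_pr] at h3
    by_cases h0 : (num (fun _ => True) X : ℝ) = 0
    · rw [h0, mul_zero]
      positivity
    · have h5 : 0 < (num (fun _ => True) X : ℝ) :=
        lt_of_le_of_ne (Nat.cast_nonneg _) (Ne.symm h0)
      exact ((lt_div_iff₀ h5).1 h3).le
  · have h1 : Tendsto (fun X : ℕ => (Pool.Agent.R413.SQ.Joint.num Q X : ℝ) /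
        (Pool.Agent.R413.SQ.Joint.num (fun _ => True) X : ℝ)) atTop (𝓝 γ) := by
      refine h.congr fun X => ?_
      rw [← num_pr]
      rfl
    obtain ⟨a, X₀, ha, h2⟩ := Pool.Agent.R413.SQ.Joint.low_of hγ h1
    exact ⟨a, X₀, ha, fun X hX => (h2 X hX).trans (hle X)⟩

end proof

open Pool.Agent.Results.MP_4a9ea6_nt.TwoPartTwistsX49 (Adm mat) in
open Pool.Agent.U115.GE (pr) in
/-- **Theorem.** `P` is a finite set of primes `≡ 1 mod 4` and `T` a finite subset of the class.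
(1) `tw M D` is the squarefree part of `M D`, it is in the class if `M` and `D` are.
(2) For at least the proportion `c ^ N` of the `D` of the class, `N` the number of the different numbers
`tw (∏ S) M`, `S ⊆ P`, `M ∈ T`, the central orders of all the `E_{tw M D}`, `M ∈ T`, over all the subfields `K`
of `ℚ(√p : p ∈ P)` are zero, and the `E_{tw M D}(K)` are finite and `[K : ℚ]` kills `Ш(E_{tw M D}/K)[2^∞]`;
there are at least `a X / √(log X)` such `D ≤ X`, `a > 0`. For `T = {M}` the number `N` is `2 ^ |P|`.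
(3) If the elements of `T` are different modulo the products of subsets of `P`, then for every `V ⊆ T` and
exactly the proportion `γ ^ |V| (1 - γ) ^ |T \ V|`, `γ = c ^ (2 ^ |P|)`, of the `D` of the class, `V` is the
set of the `M ∈ T` such that `TrivialTwo` for all the twists `tw (∏ S) (tw M D)`, `S ⊆ P`.
(4) This condition on `tw M D` implies `AllFields`. -/
theorem result (P : Finset ℕ) (hP : ∀ p ∈ P, p.Prime ∧ p % 4 = 1) :
    (∀ M D : ℕ, Class M → Class D → Class (tw M D) ∧ M * D = tw M D * Nat.gcd M D ^ 2) ∧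
    (∀ T : Finset ℕ, (∀ M ∈ T, Class M) →
      (∀ ε : ℝ, 0 < ε → ∃ X₀ : ℕ, ∀ X : ℕ, X₀ ≤ X →
        (c ^ (T.biUnion (orbit P)).card - ε) * (num (fun _ => True) X : ℝ) ≤
          (num (fun D => ∀ M ∈ T, AllFields P (tw M D)) X : ℝ)) ∧
      ∃ (a : ℝ) (X₀ : ℕ), 0 < a ∧ ∀ X : ℕ, X₀ ≤ X →
        a * X / Real.sqrt (Real.log X) ≤ (num (fun D => ∀ M ∈ T, AllFields P (tw M D)) X : ℝ)) ∧
    (∀ M : ℕ, Class M → (orbit P M).card = 2 ^ P.card) ∧
    (∀ T V : Finset ℕ, (∀ M ∈ T, Class M) → (∀ M ∈ T, ∀ M' ∈ T, M ≠ M' → M' ∉ orbit P M) → V ⊆ T →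
      Tendsto (fun X : ℕ => (num (fun D => ∀ M ∈ T,
          ((∀ S, S ⊆ P → TrivialTwo (tw (∏ q ∈ S, q) (tw M D))) ↔ M ∈ V)) X : ℝ) /
          (num (fun _ => True) X : ℝ)) atTop
        (𝓝 ((c ^ 2 ^ P.card) ^ V.card * (1 - c ^ 2 ^ P.card) ^ (T.card - V.card)))) ∧
    (∀ D : ℕ, Class D → (∀ S, S ⊆ P → TrivialTwo (tw (∏ q ∈ S, q) D)) → AllFields P D) ∧
    0.4194 < c ∧ c < 0.4195 := by
  have hc1 : 0.4194 < c := Pool.Agent.Y948.CQ.t_C2.2.2.2.1
  have hc2 : c < 0.4195 := Pool.Agent.Y948.CQ.t_C2.2.2.2.2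
  have hc0 : 0 < c := by linarith
  have hAdm : ∀ D, Class D ↔ Adm D := fun D => Iff.rfl
  refine ⟨fun M D hM hD => ⟨Pool.Agent.R413.SQ.Joint.adm_tw hM hD,
    (Pool.Agent.R413.SQ.Joint.ac_tw hM hD).2⟩, fun T hT => ?_, fun M hM => orbit_card hP hM,
    fun T V hT hd hV => ?_, fun D hD h => ?_, hc1, hc2⟩
  · have hU : ∀ m ∈ T.biUnion (orbit P), Adm m := by
      intro m hm
      obtain ⟨M, hM, hm'⟩ := Finset.mem_biUnion.1 hm
      exact adm_orbit hP (hT M hM) hm'
    refine lower_of (by positivity) (joint _ hU) fun D hD h M hM => ?_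
    exact all_tw hP (hT M hM) hD fun x hx => h x (Finset.mem_biUnion.2 ⟨M, hM, hx⟩)
  · have h1 : ∀ U ⊆ T, Tendsto (fun X => pr ((Finset.Icc 1 X).filter fun D => Class D)
        (fun D => ∀ M ∈ U, ∀ x ∈ orbit P M, (mat (tw x D)).det ≠ 0)) atTop
        (𝓝 ((c ^ 2 ^ P.card) ^ U.card)) := by
      intro U hU
      have hUa : ∀ m ∈ U.biUnion (orbit P), Adm m := by
        intro m hm
        obtain ⟨M, hM, hm'⟩ := Finset.mem_biUnion.1 hm
        exact adm_orbit hP (hT M (hU hM)) hm'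
      have h2 := joint _ hUa
      have h3 : (U.biUnion (orbit P)).card = 2 ^ P.card * U.card := by
        rw [Finset.card_biUnion fun M hM M' hM' hne =>
          orbit_disj hP (hT M (hU hM)) (hT M' (hU hM')) (hd M (hU hM) M' (hU hM') hne)]
        rw [Finset.sum_congr rfl fun M hM => orbit_card hP (hT M (hU hM)), Finset.sum_const,
          smul_eq_mul, mul_comm]
      rw [h3, pow_mul] at h2
      refine h2.congr fun X => pr_congr fun D _ => ?_
      constructor
      · intro h M hM x hx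
        exact h x (Finset.mem_biUnion.2 ⟨M, hM, hx⟩)
      · intro h x hx
        obtain ⟨M, hM, hx'⟩ := Finset.mem_biUnion.1 hx
        exact h M hM x hx'
    refine (Pool.Agent.U115.GE.exact_law h1 hV).congr fun X => ?_
    rw [num_pr]
    refine pr_congr fun D hD => ?_
    have hD' : Adm D := (Finset.mem_filter.1 hD).2
    refine forall₂_congr fun M hM => ?_
    refine iff_congr ?_ Iff.rfl
    constructor
    · intro h S hS
      have h4 := h _ (Finset.mem_image_of_mem _ (Finset.mem_powerset.2 hS))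
      have h5 := tw_tw (adm_prod hP hS).1 (hT M hM) hD'
      have h6 : tw (tw (∏ q ∈ S, q) M) D = tw (∏ q ∈ S, q) (tw M D) := h5
      rw [h6] at h4
      exact (triv_iff (Pool.Agent.R413.SQ.Joint.adm_tw (adm_prod hP hS).1
        (Pool.Agent.R413.SQ.Joint.adm_tw (hT M hM) hD'))).2 h4
    · intro h x hx
      obtain ⟨S, hS, rfl⟩ := Finset.mem_image.1 hx
      have hS' := Finset.mem_powerset.1 hS
      have h5 := tw_tw (adm_prod hP hS').1 (hT M hM) hD'
      have h6 : tw (tw (∏ q ∈ S, q) M) D = tw (∏ q ∈ S, q) (tw M D) := h5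
      rw [h6]
      exact (triv_iff (Pool.Agent.R413.SQ.Joint.adm_tw (adm_prod hP hS').1
        (Pool.Agent.R413.SQ.Joint.adm_tw (hT M hM) hD'))).1 (h S hS')
  · refine all_of hP hD fun S hS => ?_
    exact (triv_iff (Pool.Agent.R413.SQ.Joint.adm_tw (adm_prod hP hS).1 hD)).1 (h S hS)

end Pool.Agent.Results.MP_50bb2e_nt.ProportionsOverMultiquadratic
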