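import Pool.Agent.U150.XH.Core
import Pool.Agent.Results.MP_50bb2e_nt.ProportionsOverMultiquadratic

/-!
# Central order zero over all subfields of a multiquadratic field for successive prime twists

`E_D : y² = x³ - 35 D² x - 98 D³` is the quadratic twist by `D` of `X_0(49)`, `P` is a finite set of primes
`1 mod 4`, `Ω = ℚ(√q : q ∈ P)`, a totally real field of degree `2 ^ |P|`. We suppose that for the
products `∏ S`, `S ⊆ P`, `E_{∏ S}(ℚ)` is finite and `Ш(E_{∏ S}/ℚ)[2] = 0`; this is always true if the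
elements of `P` are inert in `ℚ(√-7)`.

`D` is ANY product of different primes `1 mod 4`, not in `P`, of two kinds: those which split in
`ℚ(√-7)` and are squares modulo all the elements of `P`, and those which are inert in `ℚ(√-7)` and
are squares modulo the elements of `P` that split. We twist `E_D` successively by primes of the two kinds
in any given order, the last one being inert: `N = D p_k ⋯ p_0`. We take means over the primes `p_0` up
to `X`, `X → ∞` (over a subfield of `Ω` this is the order of the conductors of the quadratic characters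
`χ_N`), then over `p_1`, …, at last over `p_k`. We prove, for every `D`:

* the iterated density of the `N` for which the twists `E_{N ∏ S}`, `S ⊆ P`, all have finitely many
  rational points and `Ш[2] = 0` exists, and is the probability of `0` after `t` steps of the Markov
  chain `r → r - 1` with probability `1 - 2 ^ -r`, `r → r` and `r → r + 1` with probability
  `2 ^ -(r + 1)`, `t` the number of the split primes among the `p_i`; the first law is that of the corank of
  `A + Y`, `A` the explicit matrix of the quadratic and quartic symbols of `D` over the field with two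
  elements, `Y` a random diagonal matrix. It does not depend on `P`;
* with at least this iterated lower density, for ALL subfields `K` of `Ω` at the same time, the
  central order of `E_N` over `K` is zero, `E_N(K)` is finite, and `[K : ℚ]` kills `Ш(E_N/K)[2^∞]`;
* this is at least `2 ^ -(n + t)`, `n` the number of the split primes of `D`: for every `D` a positive
  proportion of the prime twists `D p` has the property;
* it differs from `c = ∏ (1 - 2^{-(2i+1)}) = 0.419…` by at most `∏_{1 ≤ i ≤ n} (2 ^ i - 1) / 2 ^ t`, for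
  ALL `P`: the proportion does not decrease with the degree of the field;
* if the hypothesis on `P` does not hold, then for no `N` of the families all the twists `E_{N ∏ S}`,
  `S ⊆ P`, have finitely many rational points and `Ш[2] = 0`.

Authors: helper150 (this file, `U150/XG` and `U150/XH`), helper687 (the Markov chain, `U687/Q2`),
helper115, helper80 and helper974 (`ProportionsOverMultiquadratic`, whose definitions we use, and the
passage from the twists to the fields), helper413 (`R413/SQ`) and the authors of the descent.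
-/

set_option autoImplicit false

open scoped Classical ENNReal symmDiff

namespace Pool.Agent.Results.MP_50bb2e_nt.PrimeTwistsOverAllFields

open Filter Matrix
open Pool.Agent.Results.MP_50bb2e_nt.ProportionsOverMultiquadratic (TrivialTwo AllFields tw c)

/-- for a prime `p`: it is `1 mod 4`, splits in `ℚ(√-7)`, and is a square modulo all the elements of
`P` and not in `P` -/
def Split (P : Finset ℕ) (p : ℕ) : Prop :=
  p % 4 = 1 ∧ (p % 7 = 1 ∨ p % 7 = 2 ∨ p % 7 = 4) ∧ ∀ q ∈ P, IsSquare (p : ZMod q) ∧ ¬ q ∣ p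

/-- for a prime `p`: it is `1 mod 4`, inert in `ℚ(√-7)`, not in `P`, and a square modulo the
elements of `P` that split -/
def Inert (P : Finset ℕ) (p : ℕ) : Prop :=
  p % 4 = 1 ∧ (p % 7 = 3 ∨ p % 7 = 5 ∨ p % 7 = 6) ∧
    ∀ q ∈ P, ((q % 7 = 1 ∨ q % 7 = 2 ∨ q % 7 = 4) → IsSquare (p : ZMod q)) ∧ ¬ q ∣ p

/-- the products of different primes of the two kinds -/
def Member (P : Finset ℕ) (D : ℕ) : Prop :=
  Squarefree D ∧ ∀ p ∈ D.primeFactors, Split P p ∨ Inert P p

/-- the kind of the prime: split (`true`) or inert (`false`) -/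
def Kind (P : Finset ℕ) : Bool → ℕ → Prop
  | true, p => Split P p
  | false, p => Inert P p

/-- the primes up to `X` of the kind `s` -/
def primes (P : Finset ℕ) (s : Bool) (X : ℕ) : Set ℕ := {p : ℕ | p.Prime ∧ Kind P s p ∧ p ≤ X}

/-- the mean over the primes up to `X` of the kind `s`; those that divide `D` are left out -/
noncomputable def average (P : Finset ℕ) (s : Bool) (D : ℕ) (T : ℕ → ℝ≥0∞) (X : ℕ) : ℝ≥0∞ :=
  (∑ᶠ p ∈ {p : ℕ | p ∈ primes P s X ∧ ¬ p ∣ D}, T p) / ((primes P s X).ncard : ℝ≥0∞)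

/-- the iterated lower means of `T (D p_{k-1} ⋯ p_0)`, `p_i` of the kind `κ i` -/
noncomputable def lowerMean (P : Finset ℕ) (κ : ℕ → Bool) (T : ℕ → ℝ≥0∞) : ℕ → ℕ → ℝ≥0∞
  | 0, D => T D
  | k + 1, D => liminf (average P (κ k) D (fun p => lowerMean P κ T k (D * p))) atTop

/-- the iterated upper means of `T (D p_{k-1} ⋯ p_0)`, `p_i` of the kind `κ i` -/
noncomputable def upperMean (P : Finset ℕ) (κ : ℕ → Bool) (T : ℕ → ℝ≥0∞) : ℕ → ℕ → ℝ≥0∞
  | 0, D => T D
  | k + 1, D => limsup (average P (κ k) D (fun p => upperMean P κ T k (D * p))) atTop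

/-- `1` if `N` has the property `Q`, and `0` if not -/
noncomputable def indicator (Q : ℕ → Prop) (N : ℕ) : ℝ≥0∞ := if Q N then 1 else 0

/-- the iterated density of the `N = D p_k ⋯ p_0` with the property `Q` is `x`: the iterated lower
and upper means of the indicator are `x` -/
def Density (P : Finset ℕ) (κ : ℕ → Bool) (Q : ℕ → Prop) (k D : ℕ) (x : ℝ) : Prop :=
  lowerMean P κ (indicator Q) (k + 1) D = ENNReal.ofReal x ∧
    upperMean P κ (indicator Q) (k + 1) D = ENNReal.ofReal x

/-- all the twists `E_{N ∏ S}`, `S ⊆ P`, have finitely many rational points and `Ш[2] = 0`; `tw M N` is the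
squarefree part of `M N` -/
def AllTwists (P : Finset ℕ) (N : ℕ) : Prop := ∀ S, S ⊆ P → TrivialTwo (tw (∏ q ∈ S, q) N)

/-- the prime factors of `D` that split in `ℚ(√-7)` -/
def split (D : ℕ) : Finset ℕ := D.primeFactors.filter fun p => p % 7 = 1 ∨ p % 7 = 2 ∨ p % 7 = 4

/-- `1` if `m` is not a square modulo `p`, and `0` if it is -/
noncomputable def nonsq (p m : ℕ) : ZMod 2 := if IsSquare (m : ZMod p) then 0 else 1

/-- `1` if `-7` is not a fourth power modulo `p`, and `0` if it is -/
noncomputable def quartic (p : ℕ) : ZMod 2 := if ∃ y : ZMod p, y ^ 4 = -7 then 0 else 1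

/-- The matrix over the field with two elements, with rows and columns indexed by the split prime
factors of `D`: the entry at `(i, j)` is `nonsq i j` for `i ≠ j`, and the entry at `(i, i)` is the sum
of `quartic i` and of the `nonsq i l` for all the prime factors `l ≠ i` of `D`. -/
noncomputable def mat (D : ℕ) : Matrix (split D) (split D) (ZMod 2) :=
  Matrix.of fun i j =>
    if i = j then quartic i + ∑ l ∈ D.primeFactors.erase i, nonsq i l else nonsq i j

/-- the share of the diagonals `y` for which the matrix of `D` plus `y` has corank `r` -/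
noncomputable def law (D : ℕ) (r : ℕ) : ℝ :=
  (Nat.card {y : split D → ZMod 2 // (mat D + diagonal y).rank + r = (split D).card} : ℝ) /
    2 ^ (split D).card

/-- one step of the Markov chain: from `r` to `r - 1` with probability `1 - 2 ^ -r`, to `r` and to
`r + 1` with probability `2 ^ -(r + 1)` each -/
noncomputable def markov (p : ℕ → ℝ) (r : ℕ) : ℝ :=
  (1 - (1 / 2) ^ (r + 1)) * p (r + 1) + (1 / 2) ^ (r + 1) * p r +
    (if r = 0 then 0 else (1 / 2) ^ r * p (r - 1))

/-- the number of the split primes among the primes of the kinds `κ 1`, …, `κ k` -/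
def splitSteps (κ : ℕ → Bool) (k : ℕ) : ℕ :=
  ((Finset.range k).filter fun i => κ (i + 1) = true).card

/-- the law after the steps of the split primes -/
noncomputable def chain (κ : ℕ → Bool) (k D : ℕ) : ℕ → ℝ := markov^[splitSteps κ k] (law D)

section proof

open Finset
open Pool.Agent.U150.XG (lo up ns PR SR)
open Pool.Agent.U150.RG (mE)
open Pool.Agent.U150.XH (Kd Mb Iv gl S7 gd_twist)
open Pool.Agent.U687.Q2 (TT prob)
open Pool.Agent.R413.SQ (Gd)
open Pool.Agent.Y698.SG (n4)
open Pool.Agent.U120.MF (P4 prod_adm)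
open Pool.Agent.Results.MP_4a9ea6_nt.TwoPartTwistsX49 (Adm)

theorem kd_iff (P : Finset ℕ) (s : Bool) (p : ℕ) : Kd P false s p ↔ Kind P s p := by
  cases s
  · show (p % 4 = 1 ∧ (false = true → p % 8 = 5) ∧ _ ∧ _) ↔ _
    simp only [Bool.false_eq_true, false_imp_iff, true_and]
    rfl
  · show (p % 4 = 1 ∧ (false = true → p % 8 = 1) ∧ _ ∧ _) ↔ _
    simp only [Bool.false_eq_true, false_imp_iff, true_and]
    rfl

theorem kd_eq (P : Finset ℕ) : Kd P false = Kind P :=
  funext fun s => funext fun p => propext (kd_iff P s p)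

theorem iv_iff (P : Finset ℕ) (κ : ℕ → Bool) (k D : ℕ) : Iv P false κ k D ↔ Member P D := by
  unfold Iv Mb Member
  rw [kd_eq]
  simp only [Bool.false_eq_true, false_imp_iff, and_true]
  rfl

theorem adm_of {P : Finset ℕ} {D : ℕ} (h : Member P D) : Adm D := by
  refine ⟨h.1, fun p hp => ?_⟩
  rcases h.2 p hp with h1 | h1
  · exact h1.1
  · exact h1.1

/-- the classes of the steps -/
abbrev CC (P : Finset ℕ) (κ : ℕ → Bool) (k l : ℕ) : Prop := Kd P false (κ k) l

theorem lowerMean_eq (P : Finset ℕ) (κ : ℕ → Bool) (T : ℕ → ℝ≥0∞) (k : ℕ) :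
    ∀ D, lowerMean P κ T k D = lo (CC P κ) T k D := by
  induction k with
  | zero => intro D; rfl
  | succ k ih =>
    intro D
    have h : (fun p => lowerMean P κ T k (D * p)) = fun p => lo (CC P κ) T k (D * p) :=
      funext fun p => ih _
    show liminf (average P (κ k) D (fun p => lowerMean P κ T k (D * p))) atTop =
      liminf (mE (PR (CC P κ k)) (SR (CC P κ k) D) (fun l => lo (CC P κ) T k (D * l))) atTop
    rw [h]
    have hC : CC P κ k = Kind P (κ k) := by
      unfold CC
      rw [kd_eq]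
    rw [hC]
    rfl

theorem upperMean_eq (P : Finset ℕ) (κ : ℕ → Bool) (T : ℕ → ℝ≥0∞) (k : ℕ) :
    ∀ D, upperMean P κ T k D = up (CC P κ) T k D := by
  induction k with
  | zero => intro D; rfl
  | succ k ih =>
    intro D
    have h : (fun p => upperMean P κ T k (D * p)) = fun p => up (CC P κ) T k (D * p) :=
      funext fun p => ih _
    show limsup (average P (κ k) D (fun p => upperMean P κ T k (D * p))) atTop =
      limsup (mE (PR (CC P κ k)) (SR (CC P κ k) D) (fun l => up (CC P κ) T k (D * l))) atTop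
    rw [h]
    have hC : CC P κ k = Kind P (κ k) := by
      unfold CC
      rw [kd_eq]
    rw [hC]
    rfl

theorem lower_le_upper (P : Finset ℕ) (κ : ℕ → Bool) (T : ℕ → ℝ≥0∞) (k : ℕ) :
    ∀ D, lowerMean P κ T k D ≤ upperMean P κ T k D := by
  induction k with
  | zero => intro D; exact le_rfl
  | succ k ih =>
    intro D
    refine (liminf_le_limsup).trans (limsup_le_limsup (Eventually.of_forall fun X => ?_))
    exact Pool.Agent.U150.RG.mE_mono (P := PR (Kind P (κ k))) (S := SR (Kind P (κ k)) D)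
      (fun X => (Pool.Agent.U150.XG.PR_fin _ X).subset (Pool.Agent.U150.XG.SR_sub _ _ X))
      (fun X p _ => ih _) X

theorem split_eq (D : ℕ) : split D = D.primeFactors.filter S7 := by
  ext p
  simp only [split, S7, Finset.mem_filter]

theorem law_gl (D : ℕ) : law D = gl D (D.primeFactors.filter S7) := by
  rw [← split_eq]
  rfl

theorem chain_eq (κ : ℕ → Bool) (k D : ℕ) :
    chain κ k D = TT^[ns (fun i => κ i = true) k] (gl D (D.primeFactors.filter S7)) := by
  have h2 : splitSteps κ k = ns (fun i => κ i = true) k := by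
    unfold splitSteps ns
    congr 1
    ext i
    simp only [Finset.mem_filter]
  unfold chain
  rw [h2, law_gl]
  rfl

theorem steps_eq (κ : ℕ → Bool) (k : ℕ) : splitSteps κ k = ns (fun i => κ i = true) k := by
  unfold splitSteps ns
  congr 1
  ext i
  simp only [Finset.mem_filter]

theorem c_eq : c = prob 0 := by
  rw [Pool.Agent.U687.Q2.prob_zero]
  rfl

theorem triv_gd {P : Finset ℕ} (hP : ∀ q ∈ P, q.Prime ∧ q % 4 = 1) {S : Finset ℕ} (hS : S ⊆ P)
    {N : ℕ} (hN : Adm N) : TrivialTwo (tw (∏ q ∈ S, q) N) ↔ Gd n4 (N.primeFactors ∆ S) := by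
  obtain ⟨a1, a2⟩ := ProportionsOverMultiquadratic.adm_prod hP hS
  have h := Pool.Agent.R413.SQ.Joint.det_tw a1 hN
  rw [a2] at h
  exact (ProportionsOverMultiquadratic.triv_iff (Pool.Agent.R413.SQ.Joint.adm_tw a1 hN)).trans h

theorem triv_gd' {P : Finset ℕ} (hP : ∀ q ∈ P, q.Prime ∧ q % 4 = 1) {S : Finset ℕ} (hS : S ⊆ P) :
    TrivialTwo (∏ q ∈ S, q) ↔ Gd n4 S := by
  obtain ⟨a1, a2⟩ := ProportionsOverMultiquadratic.adm_prod hP hS
  rw [ProportionsOverMultiquadratic.triv_iff a1, Pool.Agent.R413.SQ.Cor.det_iff a1, a2]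

theorem all_gd {P : Finset ℕ} (hP : ∀ q ∈ P, q.Prime ∧ q % 4 = 1) {N : ℕ} (hN : Member P N) :
    AllTwists P N ↔ Gd n4 N.primeFactors ∧ ∀ S, S ⊆ P → Gd n4 S := by
  have h1 : AllTwists P N ↔ ∀ S, S ⊆ P → Gd n4 N.primeFactors ∧ Gd n4 S :=
    forall₂_congr fun S hS => (triv_gd hP hS (adm_of hN)).trans
      (gd_twist hP ((iv_iff P (fun _ => false) 0 N).2 hN).1 hS)
  rw [h1]
  exact ⟨fun h => ⟨(h ∅ (Finset.empty_subset P)).1, fun S hS => (h S hS).2⟩,
    fun h S hS => ⟨h.1, h.2 S hS⟩⟩

theorem fields {P : Finset ℕ} (hP : ∀ q ∈ P, q.Prime ∧ q % 4 = 1) {N : ℕ} (hN : Adm N)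
    (h : AllTwists P N) : AllFields P N := by
  refine ProportionsOverMultiquadratic.all_of hP hN fun S hS => ?_
  obtain ⟨a1, a2⟩ := ProportionsOverMultiquadratic.adm_prod hP hS
  rw [Pool.Agent.R413.SQ.Joint.det_tw a1 hN, a2]
  exact (triv_gd hP hS hN).1 (h S hS)

theorem ind_one {Q : ℕ → Prop} {N : ℕ} (h : Q N) : 1 ≤ indicator Q N := by
  unfold indicator
  rw [if_pos h]

theorem ind_le (Q : ℕ → Prop) (N : ℕ) : indicator Q N ≤ 1 := by
  unfold indicator
  split_ifs
  · exact le_rfl
  · exact zero_le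

theorem steps_tendsto (κ : ℕ → Bool) (h : ∃ᶠ i in atTop, κ i = true) :
    Tendsto (splitSteps κ) atTop atTop := by
  have hs : ∀ k, splitSteps κ (k + 1) =
      if κ (k + 1) = true then splitSteps κ k + 1 else splitSteps κ k := by
    intro k
    unfold splitSteps
    rw [Finset.range_add_one, Finset.filter_insert]
    split_ifs with h1
    · rw [Finset.card_insert_of_notMem]
      simp
    · rfl
  have hm : Monotone (splitSteps κ) := monotone_nat_of_le_succ fun k => by
    rw [hs]
    split_ifs <;> omega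
  refine tendsto_atTop_atTop_of_monotone hm fun m => ?_
  induction m with
  | zero => exact ⟨0, Nat.zero_le _⟩
  | succ m ih =>
    obtain ⟨k, hk⟩ := ih
    obtain ⟨j, hj, hR⟩ := (Filter.frequently_atTop.1 h) (k + 1)
    obtain ⟨i, rfl⟩ : ∃ i, j = i + 1 := ⟨j - 1, by omega⟩
    refine ⟨i + 1, ?_⟩
    rw [hs, if_pos hR]
    have := hm (show k ≤ i by omega)
    omega

theorem dist_c {P : Finset ℕ} {D : ℕ} (κ : ℕ → Bool) (k : ℕ) (hD : Member P D) :
    |chain κ k D 0 - c| ≤
      (∏ i ∈ Finset.range (split D).card, ((2 : ℝ) ^ (i + 1) - 1)) / 2 ^ splitSteps κ k := by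
  rw [chain_eq, c_eq, steps_eq, split_eq]
  exact Pool.Agent.U150.XH.law_dist D ((iv_iff P κ 0 D).2 hD).1 _

/-- the limit -/
theorem chain_tendsto {P : Finset ℕ} {D : ℕ} (κ : ℕ → Bool) (hF : ∃ᶠ i in atTop, κ i = true)
    (hD : Member P D) : Tendsto (fun k => chain κ k D 0) atTop (nhds c) := by
  have hst := steps_tendsto κ hF
  set B : ℝ := ∏ i ∈ Finset.range (split D).card, ((2 : ℝ) ^ (i + 1) - 1) with hB
  have h2 : Tendsto (fun k => B / 2 ^ splitSteps κ k) atTop (nhds 0) := by
    have h3 : Tendsto (fun m : ℕ => B / 2 ^ m) atTop (nhds 0) := by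
      have h4 := (tendsto_pow_atTop_nhds_zero_of_lt_one (r := (1 / 2 : ℝ)) (by norm_num)
        (by norm_num)).const_mul B
      rw [mul_zero] at h4
      refine h4.congr fun m => ?_
      rw [one_div, inv_pow]
      ring
    exact h3.comp hst
  rw [tendsto_iff_norm_sub_tendsto_zero]
  refine squeeze_zero (fun k => norm_nonneg _) (fun k => ?_) h2
  rw [Real.norm_eq_abs]
  exact dist_c κ k hD

/-- the density of a property equivalent to a good matrix -/
theorem dens_of {Q : ℕ → Prop} {P : Finset ℕ} {κ : ℕ → Bool}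
    (hQ : ∀ N, Member P N → (Q N ↔ Gd n4 N.primeFactors))
    (hP : ∀ q ∈ P, q.Prime ∧ q % 4 = 1) (h0 : κ 0 = false) (k : ℕ) {D : ℕ} (hD : Member P D) :
    Density P κ Q k D (chain κ k D 0) := by
  have h1 : ENNReal.ofReal (chain κ k D 0) ≤ lowerMean P κ (indicator Q) (k + 1) D := by
    rw [lowerMean_eq, chain_eq]
    exact Pool.Agent.U150.XH.low_of hP h0 _ (fun N hN h => ind_one
      ((hQ N ((iv_iff P κ 0 N).1 hN)).2 h)) k ((iv_iff P κ _ D).2 hD)
  have h2 : upperMean P κ (indicator Q) (k + 1) D ≤ ENNReal.ofReal (chain κ k D 0) := by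
    rw [upperMean_eq, chain_eq]
    refine Pool.Agent.U150.XH.up_of hP h0 _ (ind_le _) (fun N hN h => ?_) k
      ((iv_iff P κ _ D).2 hD)
    unfold indicator
    rw [if_neg fun hA => h ((hQ N ((iv_iff P κ 0 N).1 hN)).1 hA)]
  have h3 := lower_le_upper P κ (indicator Q) (k + 1) D
  exact ⟨le_antisymm (h3.trans h2) h1, le_antisymm h2 (h1.trans h3)⟩

/-- a set of inert primes -/
theorem inert_gd {S : Finset ℕ} (h : ∀ q ∈ S, q % 7 = 3 ∨ q % 7 = 5 ∨ q % 7 = 6) : Gd n4 S := by
  intro x _ p hp hm
  have h1 := (Pool.Agent.U150.XH.mk_iff p).1 hm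
  have h2 := h p hp
  unfold S7 at h1
  omega

end proof

/-- **Central order zero over all subfields of `ℚ(√q : q ∈ P)` for successive prime twists.** -/
theorem result (P : Finset ℕ) (hP : ∀ q ∈ P, q.Prime ∧ q % 4 = 1) :
    ((∀ q ∈ P, q % 7 = 3 ∨ q % 7 = 5 ∨ q % 7 = 6) → ∀ S, S ⊆ P → TrivialTwo (∏ q ∈ S, q)) ∧
    ((∀ S, S ⊆ P → TrivialTwo (∏ q ∈ S, q)) → ∀ κ : ℕ → Bool, κ 0 = false →
      ∀ D : ℕ, Member P D →
        (∀ k : ℕ,
          Density P κ (AllTwists P) k D (chain κ k D 0) ∧
          Density P κ TrivialTwo k D (chain κ k D 0) ∧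
          ENNReal.ofReal (chain κ k D 0) ≤ lowerMean P κ (indicator (AllFields P)) (k + 1) D ∧
          (1 / 2 : ℝ) ^ ((split D).card + splitSteps κ k) ≤ chain κ k D 0 ∧
          |chain κ k D 0 - c| ≤
            (∏ i ∈ Finset.range (split D).card, ((2 : ℝ) ^ (i + 1) - 1)) / 2 ^ splitSteps κ k) ∧
        ((∃ᶠ i in atTop, κ i = true) → Tendsto (fun k => chain κ k D 0) atTop (nhds c))) ∧
    ((∃ S, S ⊆ P ∧ ¬ TrivialTwo (∏ q ∈ S, q)) → ∀ N, Member P N → ¬ AllTwists P N) ∧
    0.4194 < c ∧ c < 0.4195 := by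
  obtain ⟨-, -, -, l1, l2⟩ := Pool.Agent.U687.Q2.lim2_facts
  refine ⟨fun hI S hS => ?_, fun hT κ h0 D hD => ⟨fun k => ⟨?_, ?_, ?_, ?_, dist_c κ k hD⟩,
    fun hF => chain_tendsto κ hF hD⟩, fun hS N hN hA => ?_, l1, l2⟩
  · exact (triv_gd' hP hS).2 (inert_gd fun q hq => hI q (hS hq))
  · exact dens_of (fun N hN => (all_gd hP hN).trans
      ⟨fun h => h.1, fun h => ⟨h, fun U hU => (triv_gd' hP hU).1 (hT U hU)⟩⟩) hP h0 k hD
  · exact dens_of (fun N hN => by
      rw [ProportionsOverMultiquadratic.triv_iff (adm_of hN),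
        Pool.Agent.R413.SQ.Cor.det_iff (adm_of hN)]) hP h0 k hD
  · rw [lowerMean_eq, chain_eq]
    refine Pool.Agent.U150.XH.low_of hP h0 _ (fun N hN h => ind_one ?_) k ((iv_iff P κ _ D).2 hD)
    have hN' := (iv_iff P κ 0 N).1 hN
    exact fields hP (adm_of hN') ((all_gd hP hN').2
      ⟨h, fun U hU => (triv_gd' hP hU).1 (hT U hU)⟩)
  · rw [chain_eq, steps_eq, split_eq]
    exact Pool.Agent.U150.XH.law_ge D ((iv_iff P κ 0 D).2 hD).1 _
  · obtain ⟨S, hS, hn⟩ := hS
    exact hn ((triv_gd' hP hS).2 (((all_gd hP hN).1 hA).2 S hS))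

end Pool.Agent.Results.MP_50bb2e_nt.PrimeTwistsOverAllFields
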